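import Pool.Agent.X251.WA.Aff
import Pool.Agent.Y377.AO.Conn2

/-!
Regular sequences of integral points on curves with Laurent polynomial coordinates.
-/

set_option autoImplicit false

namespace Pool.Agent.X251.WA.A

open Pool.Agent.W235.RM Pool.Agent.H159R3.Exp IsDedekindDomain
open scoped NumberField

/-- the sum of the digits is `b`-additive -/
theorem digitSum_add {b : ℕ} (hb : 2 ≤ b) (m c : ℕ) (hc : c < b) :
    (Nat.digits b (b * m + c)).sum = (Nat.digits b m).sum + c := by
  rcases Nat.eq_zero_or_pos (b * m + c) with h | h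
  · have h1 : m = 0 := by
      rcases Nat.eq_zero_or_pos m with h2 | h2
      · exact h2
      · have := Nat.mul_pos (by omega : 0 < b) h2
        omega
    have h2 : c = 0 := by omega
    subst h1; subst h2
    simp
  · have h1 := Nat.digits_add b (by omega) c m hc (by
      by_cases hc0 : c = 0
      · right
        rintro rfl
        subst hc0
        simp at h
      · exact Or.inl hc0)
    rw [Nat.add_comm (b * m) c, h1, List.sum_cons, Nat.add_comm]

theorem digitSum_surj {b : ℕ} (hb : 2 ≤ b) (k : ℕ) : ∃ m, (Nat.digits b m).sum = k := by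
  induction k with
  | zero => exact ⟨0, by simp⟩
  | succ k ih =>
    obtain ⟨m, hm⟩ := ih
    exact ⟨b * m + 1, by rw [digitSum_add hb m 1 (by omega), hm]⟩

/-- the regular sequence of integral points -/
theorem reg_of_hasLaurent {K : Type} [Field K] {ι κ : Type} {n : ℕ}
    (F : ι → MvPolynomial (Fin n) (𝓞 K)) (G : κ → MvPolynomial (Fin n) (𝓞 K))
    (h : HasLaurent F G) {b : ℕ} (hb : 2 ≤ b) :
    ∃ (L : Type) (_ : Field L) (_ : NumberField L) (_ : Algebra K L)
      (S : Set (HeightOneSpectrum (𝓞 L))) (r : ℕ) (x : ℕ → Fin n → L), S.Finite ∧ Reg b r x ∧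
      (∀ m, x m ∈ intPoints F L S) ∧ (Set.range x \ intPoints G L S).Infinite := by
  classical
  obtain ⟨L, _, _, _, v, hv, hvF, hG, hne⟩ := h
  obtain ⟨S, hS, hint⟩ := integral_pts v hv
  obtain ⟨e, Q, hQ⟩ := Laur.common v hv
  let s : ℕ → ℕ := fun m => (Nat.digits b m).sum
  let x : ℕ → Fin n → L := fun m => v ((2 : L) ^ s m)
  set N : ℕ := Finset.univ.sup (fun j => (Q j).natDegree) + 1 with hN
  let gen : Fin N → (ℕ → L) := fun l m => ((2 : L) ^ (l : ℕ) / 2 ^ e) ^ s m
  have hgen : ∀ l c, c < b → (fun m => gen l (b * m + c)) =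
      ((2 : L) ^ (l : ℕ) / 2 ^ e) ^ c • gen l := by
    intro l c hc
    funext m
    have h1 : s (b * m + c) = s m + c := digitSum_add hb m c hc
    simp only [gen, h1, Pi.smul_apply, smul_eq_mul]
    rw [pow_add, mul_comm]
  refine ⟨L, inferInstance, inferInstance, inferInstance, S, N, x, hS, ?_, fun m => ?_, ?_⟩
  · refine ⟨Submodule.span L (Set.range gen), FiniteDimensional.span_of_finite L
      (Set.finite_range gen), ?_, ?_, ?_⟩
    · exact (finrank_range_le_card (R := L) gen).trans (by simp)
    · intro f hf c hc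
      induction hf using Submodule.span_induction with
      | mem f hf =>
        obtain ⟨l, rfl⟩ := hf
        rw [hgen l c hc]
        exact Submodule.smul_mem _ _ (Submodule.subset_span ⟨l, rfl⟩)
      | zero => exact Submodule.zero_mem _
      | add f g _ _ h1 h2 => exact Submodule.add_mem _ h1 h2
      | smul a f _ h1 => exact Submodule.smul_mem _ a h1
    · intro j
      have h1 : (fun m => x m j) = ∑ l : Fin N, (Q j).coeff l • gen l := by
        funext m
        have h2 := hQ ((2 : L) ^ s m) (pow_ne_zero _ two_ne_zero) j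
        have h3 : (((2 : L) ^ s m) ^ e) ≠ 0 := pow_ne_zero _ (pow_ne_zero _ two_ne_zero)
        have hdeg : (Q j).natDegree < N := by
          have := Finset.le_sup (f := fun j => (Q j).natDegree) (Finset.mem_univ j)
          omega
        rw [Finset.sum_apply]
        change v ((2 : L) ^ s m) j = _
        rw [h2, Polynomial.eval_eq_sum_range' hdeg, Finset.sum_div, Finset.sum_range]
        refine Finset.sum_congr rfl fun l _ => ?_
        simp only [gen, Pi.smul_apply, smul_eq_mul]
        rw [div_pow, ← pow_mul, ← pow_mul, ← pow_mul, ← pow_mul, mul_comm (l : ℕ) (s m),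
          mul_comm e (s m), mul_div_assoc]
      rw [h1]
      exact Submodule.sum_mem _ fun l _ => Submodule.smul_mem _ _ (Submodule.subset_span ⟨l, rfl⟩)
  · exact ⟨fun j => hint (s m) j, fun i => hvF i _ (pow_ne_zero _ two_ne_zero)⟩
  · refine (infinite_points F G L v hv hvF hG hne 2 le_rfl).mono ?_
    rintro y ⟨_, ⟨l, hl⟩, k, rfl⟩
    obtain ⟨m, hm⟩ := digitSum_surj hb k
    refine ⟨⟨m, ?_⟩, fun hmem => hl (hmem.2 l)⟩
    change v ((2 : L) ^ s m) = _
    rw [show s m = k from hm]
    simp

end Pool.Agent.X251.WA.A
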