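import Mathlib

set_option autoImplicit false

namespace Pool.Agent.X251.WA

open Matrix

/-! ### Restriction to the range of a matrix -/

section range

variable {K : Type} [Field K] {r : ℕ}

/-- the map `Q0 * E` on the range of `Q0` -/
noncomputable def rs (Q0 E : Matrix (Fin r) (Fin r) K) :
    Module.End K (LinearMap.range Q0.mulVecLin) :=
  LinearMap.codRestrict _ ((Q0 * E).mulVecLin ∘ₗ (LinearMap.range Q0.mulVecLin).subtype)
    (fun y => ⟨E *ᵥ (y : Fin r → K), by simp [Matrix.mulVec_mulVec]⟩)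

theorem rs_apply (Q0 E : Matrix (Fin r) (Fin r) K) (y : LinearMap.range Q0.mulVecLin) :
    ((rs Q0 E y : LinearMap.range Q0.mulVecLin) : Fin r → K) = (Q0 * E) *ᵥ (y : Fin r → K) := rfl

theorem rs_prod (Q0 : Matrix (Fin r) (Fin r) K) : ∀ (Es : List (Matrix (Fin r) (Fin r) K))
    (y : LinearMap.range Q0.mulVecLin), (((Es.map (rs Q0)).prod y : LinearMap.range Q0.mulVecLin) :
      Fin r → K) = (Es.map (Q0 * ·)).prod *ᵥ (y : Fin r → K) := by
  intro Es
  induction Es with
  | nil => intro y; simp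
  | cons E Es ih =>
    intro y
    rw [List.map_cons, List.prod_cons, Module.End.mul_apply, rs_apply, ih, List.map_cons,
      List.prod_cons, Matrix.mulVec_mulVec]

theorem exists_restrict (Q0 : Matrix (Fin r) (Fin r) K) (Es : List (Matrix (Fin r) (Fin r) K))
    (hrk : ((Es.map (Q0 * ·)).prod * Q0).rank = Q0.rank) :
    ∃ (s : ℕ) (J : Matrix (Fin r) (Fin s) K), s ≤ r ∧ (∀ y, ∃ u, Q0 *ᵥ y = J *ᵥ u) ∧
      ∀ E ∈ Es, ∃ g : Matrix.GeneralLinearGroup (Fin s) K,
        (Q0 * E) * J = J * (g : Matrix (Fin s) (Fin s) K) := by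
  classical
  set V := LinearMap.range Q0.mulVecLin with hV
  set s := Module.finrank K V with hs
  let b : Module.Basis (Fin s) K V := Module.finBasis K V
  let J : Matrix (Fin r) (Fin s) K := Matrix.of fun i j => (b j : Fin r → K) i
  have hJ : ∀ c : Fin s → K, J *ᵥ c = ((∑ j, c j • b j : V) : Fin r → K) := by
    intro c
    funext i
    rw [Submodule.coe_sum, Finset.sum_apply]
    simp only [Matrix.mulVec, dotProduct, J, Matrix.of_apply, Submodule.coe_smul, Pi.smul_apply,
      smul_eq_mul]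
    exact Finset.sum_congr rfl fun j _ => mul_comm _ _
  refine ⟨s, J, ?_, ?_, ?_⟩
  · exact Q0.rank_le_height
  · intro y
    let y' : V := ⟨Q0 *ᵥ y, ⟨y, rfl⟩⟩
    refine ⟨fun j => b.repr y' j, ?_⟩
    rw [hJ, b.sum_repr y']
  -- all the restrictions are bijective
  have hsurj : Function.Surjective ((Es.map (rs Q0)).prod : Module.End K V) := by
    have hle : LinearMap.range ((Es.map (Q0 * ·)).prod * Q0).mulVecLin ≤ V := by
      rintro _ ⟨y, rfl⟩
      cases Es with
      | nil => exact ⟨y, by simp⟩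
      | cons E Es =>
        refine ⟨(E * (Es.map (Q0 * ·)).prod * Q0) *ᵥ y, ?_⟩
        simp only [Matrix.mulVecLin_apply, Matrix.mulVec_mulVec, List.map_cons, List.prod_cons,
          Matrix.mul_assoc]
    have heq : LinearMap.range ((Es.map (Q0 * ·)).prod * Q0).mulVecLin = V :=
      Submodule.eq_of_le_of_finrank_eq hle hrk
    intro y
    have hy : (y : Fin r → K) ∈ LinearMap.range ((Es.map (Q0 * ·)).prod * Q0).mulVecLin := by
      rw [heq]; exact y.2
    obtain ⟨t, ht⟩ := hy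
    refine ⟨⟨Q0 *ᵥ t, ⟨t, rfl⟩⟩, Subtype.ext ?_⟩
    rw [rs_prod]
    change (Es.map (Q0 * ·)).prod *ᵥ (Q0 *ᵥ t) = _
    rw [Matrix.mulVec_mulVec]
    exact ht
  have hdet : LinearMap.det ((Es.map (rs Q0)).prod : Module.End K V) ≠ 0 := by
    have h1 : IsUnit ((Es.map (rs Q0)).prod : Module.End K V) := by
      rw [LinearMap.isUnit_iff_range_eq_top]
      exact LinearMap.range_eq_top.2 hsurj
    exact ((LinearMap.isUnit_iff_isUnit_det _).1 h1).ne_zero
  intro E hE
  have hdE : LinearMap.det (rs Q0 E) ≠ 0 := by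
    intro h0
    apply hdet
    rw [map_list_prod, List.map_map]
    exact List.prod_eq_zero (List.mem_map.2 ⟨E, hE, h0⟩)
  let g : Matrix (Fin s) (Fin s) K := LinearMap.toMatrix b b (rs Q0 E)
  have hg : g.det ≠ 0 := by
    rw [LinearMap.det_toMatrix]; exact hdE
  refine ⟨Matrix.GeneralLinearGroup.mkOfDetNeZero g hg, ?_⟩
  change (Q0 * E) * J = J * g
  ext i j
  have h1 : ((Q0 * E) * J) i j = ((Q0 * E) *ᵥ (b j : Fin r → K)) i := rfl
  have h2 : (J * g) i j = (J *ᵥ fun k => g k j) i := rfl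
  have h3 : (∑ k, g k j • b k : V) = rs Q0 E (b j) := by
    have h4 := b.sum_repr (rs Q0 E (b j))
    conv_rhs => rw [← h4]
    refine Finset.sum_congr rfl fun k _ => ?_
    have h5 : g k j = b.repr (rs Q0 E (b j)) k := LinearMap.toMatrix_apply b b (rs Q0 E) k j
    exact congrArg (· • b k) h5
  rw [h1, h2, hJ, h3, rs_apply]

end range

/-! ### From semigroups to groups -/

section grp

variable {K : Type} [Field K] {s : ℕ}

/-- the polynomial `P(g y)` -/
noncomputable def lin (g : Matrix (Fin s) (Fin s) K) (P : MvPolynomial (Fin s) K) :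
    MvPolynomial (Fin s) K :=
  MvPolynomial.aeval (fun i => ∑ j, MvPolynomial.C (g i j) * MvPolynomial.X j) P

theorem eval_lin (g : Matrix (Fin s) (Fin s) K) (P : MvPolynomial (Fin s) K) (y : Fin s → K) :
    MvPolynomial.eval y (lin g P) = MvPolynomial.eval (g *ᵥ y) P := by
  unfold lin
  have h1 := MvPolynomial.comp_aeval_apply (R := K)
    (fun i => ∑ j, MvPolynomial.C (g i j) * MvPolynomial.X j : Fin s → MvPolynomial (Fin s) K)
    (MvPolynomial.aeval y : MvPolynomial (Fin s) K →ₐ[K] K) P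
  rw [← MvPolynomial.coe_aeval_eq_eval, ← MvPolynomial.coe_aeval_eq_eval]
  change MvPolynomial.aeval y _ = MvPolynomial.aeval (g *ᵥ y) P
  rw [h1]
  congr 2
  funext i
  rw [map_sum]
  simp [Matrix.mulVec, dotProduct]

/-- polynomials vanishing on `S`, `g S ⊆ S`, vanish on `g⁻¹ S` -/
theorem vanish_inv (S : Set (Fin s → K)) (g : Matrix.GeneralLinearGroup (Fin s) K)
    (hg : ∀ y ∈ S, (g : Matrix (Fin s) (Fin s) K) *ᵥ y ∈ S) (P : MvPolynomial (Fin s) K)
    (hP : ∀ y ∈ S, MvPolynomial.eval y P = 0) :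
    ∀ y ∈ S, MvPolynomial.eval
      (((g⁻¹ : Matrix.GeneralLinearGroup (Fin s) K) : Matrix (Fin s) (Fin s) K) *ᵥ y) P = 0 := by
  classical
  let I : ℕ → Ideal (MvPolynomial (Fin s) K) := fun m =>
    { carrier := {P | ∀ y ∈ S, MvPolynomial.eval
        (((g ^ m : Matrix.GeneralLinearGroup (Fin s) K) : Matrix (Fin s) (Fin s) K) *ᵥ y) P = 0}
      add_mem' := fun {a b} ha hb y hy => by rw [map_add, ha y hy, hb y hy, add_zero]
      zero_mem' := fun y _ => map_zero _
      smul_mem' := fun c x hx y hy => by rw [smul_eq_mul, map_mul, hx y hy, mul_zero] }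
  have hI : ∀ m P, P ∈ I m ↔ ∀ y ∈ S, MvPolynomial.eval
      (((g ^ m : Matrix.GeneralLinearGroup (Fin s) K) : Matrix (Fin s) (Fin s) K) *ᵥ y) P = 0 :=
    fun _ _ => Iff.rfl
  have hmul : ∀ (a b : Matrix.GeneralLinearGroup (Fin s) K) (y : Fin s → K),
      ((a * b : Matrix.GeneralLinearGroup (Fin s) K) : Matrix (Fin s) (Fin s) K) *ᵥ y =
        (a : Matrix (Fin s) (Fin s) K) *ᵥ ((b : Matrix (Fin s) (Fin s) K) *ᵥ y) := by
    intro a b y
    rw [Units.val_mul, Matrix.mulVec_mulVec]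
  have hmono : Monotone I := by
    refine monotone_nat_of_le_succ fun m P hP y hy => ?_
    rw [pow_succ, hmul]
    exact hP _ (hg y hy)
  obtain ⟨m, hm⟩ := monotone_stabilizes_iff_noetherian.2
    (inferInstance : IsNoetherianRing (MvPolynomial (Fin s) K)) ⟨I, hmono⟩
  have hm1 : I m = I (m + 1) := hm (m + 1) (Nat.le_succ m)
  intro y hy
  set h : Matrix.GeneralLinearGroup (Fin s) K := (g ^ (m + 1))⁻¹ with hh
  have hQ : lin (h : Matrix (Fin s) (Fin s) K) P ∈ I (m + 1) := by
    rw [hI]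
    intro y hy
    rw [eval_lin, ← hmul, hh, inv_mul_cancel, Units.val_one, Matrix.one_mulVec]
    exact hP y hy
  rw [← hm1, hI] at hQ
  have h1 := hQ y hy
  rw [eval_lin, ← hmul] at h1
  have h2 : h * g ^ m = g⁻¹ := by rw [hh, pow_succ']; group
  rwa [h2] at h1

/-- a polynomial which vanishes on the orbit of a semigroup vanishes on the orbit of the group -/
theorem vanish_group {N : ℕ} (ρ : FreeGroup (Fin N) →* Matrix.GeneralLinearGroup (Fin s) K)
    (u : Fin s → K) (P : MvPolynomial (Fin s) K)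
    (hP : ∀ l : List (Fin N), MvPolynomial.eval
      ((ρ (l.map FreeGroup.of).prod : Matrix (Fin s) (Fin s) K) *ᵥ u) P = 0)
    (h : FreeGroup (Fin N)) :
    MvPolynomial.eval ((ρ h : Matrix (Fin s) (Fin s) K) *ᵥ u) P = 0 := by
  classical
  let S : Set (Fin s → K) := {y | ∃ l : List (Fin N),
    y = (ρ (l.map FreeGroup.of).prod : Matrix (Fin s) (Fin s) K) *ᵥ u}
  have hmul : ∀ (a b : FreeGroup (Fin N)) (y : Fin s → K),
      (ρ (a * b) : Matrix (Fin s) (Fin s) K) *ᵥ y =
        (ρ a : Matrix (Fin s) (Fin s) K) *ᵥ ((ρ b : Matrix (Fin s) (Fin s) K) *ᵥ y) := by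
    intro a b y
    rw [map_mul, Units.val_mul, Matrix.mulVec_mulVec]
  have hgen : ∀ (j : Fin N), ∀ y ∈ S,
      (ρ (FreeGroup.of j) : Matrix (Fin s) (Fin s) K) *ᵥ y ∈ S := by
    rintro j _ ⟨l, rfl⟩
    exact ⟨j :: l, by rw [List.map_cons, List.prod_cons, hmul]⟩
  have St : ∀ h : FreeGroup (Fin N), ∀ P : MvPolynomial (Fin s) K,
      (∀ y ∈ S, MvPolynomial.eval y P = 0) →
      ∀ y ∈ S, MvPolynomial.eval ((ρ h : Matrix (Fin s) (Fin s) K) *ᵥ y) P = 0 := by
    intro h
    induction h using FreeGroup.induction_on with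
    | C1 =>
      intro P hP y hy
      rw [map_one, Units.val_one, Matrix.one_mulVec]; exact hP y hy
    | of j =>
      intro P hP y hy
      exact hP _ (hgen j y hy)
    | inv_of j _ =>
      intro P hP y hy
      rw [map_inv]
      exact vanish_inv S (ρ (FreeGroup.of j)) (hgen j) P hP y hy
    | mul a b ha hb =>
      intro P hP y hy
      rw [hmul, ← eval_lin]
      refine hb _ (fun y hy => ?_) y hy
      rw [eval_lin]
      exact ha P hP y hy
  have h1 := St h P (by
    rintro _ ⟨l, rfl⟩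
    exact hP l) u ⟨[], by simp⟩
  exact h1

end grp

/-! ### Removing a block -/

section remove

variable {K : Type} [Field K] {s n : ℕ} {H : Type} [Group H]

theorem exists_remove (ρ : H →* Matrix.GeneralLinearGroup (Fin s) K) (Nn : Subgroup H)
    (hn : Nn.Normal) (hfin : Nn.index ≠ 0) (M : Matrix (Fin n) (Fin s) K) (u : Fin s → K)
    (l : Fin n) (ts : List H) (hts : s * Nn.index ≤ ts.length)
    (h0 : (M *ᵥ ((ρ ts.prod : Matrix (Fin s) (Fin s) K) *ᵥ u)) l ≠ 0) :
    ∃ i j : ℕ, i < j ∧ j ≤ ts.length ∧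
      (M *ᵥ ((ρ ((ts.take i).prod * (ts.drop j).prod) : Matrix (Fin s) (Fin s) K) *ᵥ u)) l ≠ 0 ∧
      ts.prod⁻¹ * ((ts.take i).prod * (ts.drop j).prod) ∈ Nn := by
  classical
  by_contra hcon
  push Not at hcon
  have hFI : Nn.FiniteIndex := ⟨hfin⟩
  have hfinq : Fintype (H ⧸ Nn) := Fintype.ofFinite _
  set N := ts.length with hN
  let hp : ℕ → H := fun i => (ts.take i).prod
  let kp : ℕ → H := fun i => (ts.drop i).prod
  have hhk : ∀ i, hp i * kp i = ts.prod := fun i => List.prod_take_mul_prod_drop ts i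
  have hmul : ∀ (a b : H) (y : Fin s → K),
      (ρ (a * b) : Matrix (Fin s) (Fin s) K) *ᵥ y =
        (ρ a : Matrix (Fin s) (Fin s) K) *ᵥ ((ρ b : Matrix (Fin s) (Fin s) K) *ᵥ y) := by
    intro a b y
    rw [map_mul, Units.val_mul, Matrix.mulVec_mulVec]
  -- the vectors
  let b : Fin (N + 1) → (H ⧸ Nn → Fin s → K) := fun j =>
    Pi.single (hp j : H ⧸ Nn) ((ρ (kp j) : Matrix (Fin s) (Fin s) K) *ᵥ u)
  let φ : Fin (N + 1) → ((H ⧸ Nn → Fin s → K) → K) := fun i e =>
    (M *ᵥ ((ρ (hp i) : Matrix (Fin s) (Fin s) K) *ᵥ (e (hp i : H ⧸ Nn)))) l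
  have hφadd : ∀ i (c : Fin (N + 1) → K), φ i (∑ j, c j • b j) = ∑ j, c j * φ i (b j) := by
    intro i c
    simp only [φ, Finset.sum_apply, Pi.smul_apply, Matrix.mulVec_sum, Matrix.mulVec_smul,
      smul_eq_mul]
  have hdiag : ∀ i, φ i (b i) ≠ 0 := by
    intro i
    simp only [φ, b, Pi.single_eq_same]
    rw [← hmul, hhk]
    exact h0
  have htri : ∀ i j : Fin (N + 1), i < j → φ i (b j) = 0 := by
    intro i j hij
    by_cases hc : (hp i : H ⧸ Nn) = (hp j : H ⧸ Nn)
    · simp only [φ, b]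
      rw [hc, Pi.single_eq_same, ← hmul]
      by_contra hne
      refine hcon i j hij (by omega) hne ?_
      have h1 : (hp i)⁻¹ * hp j ∈ Nn := QuotientGroup.eq.1 hc
      have h2 : ts.prod⁻¹ * (hp i * kp j) = (kp j)⁻¹ * ((hp j)⁻¹ * hp i) * kp j := by
        rw [← hhk j]; group
      have h3 : (hp j)⁻¹ * hp i ∈ Nn := by
        have := Nn.inv_mem h1
        rwa [_root_.mul_inv_rev, inv_inv] at this
      change ts.prod⁻¹ * (hp i * kp j) ∈ Nn
      rw [h2]
      have h4 := hn.conj_mem _ h3 (kp j)⁻¹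
      rwa [inv_inv] at h4
    · simp only [φ, b]
      rw [Pi.single_eq_of_ne hc, Matrix.mulVec_zero, Matrix.mulVec_zero]
      rfl
  -- linear dependence
  have hdim : Module.finrank K (H ⧸ Nn → Fin s → K) < Fintype.card (Fin (N + 1)) := by
    rw [Module.finrank_pi_fintype]
    simp only [Module.finrank_fin_fun, Finset.sum_const, smul_eq_mul, Finset.card_univ,
      Fintype.card_fin]
    rw [← Nat.card_eq_fintype_card, ← Subgroup.index_eq_card, Nat.mul_comm]
    omega
  have hnli : ¬ LinearIndependent K b := by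
    intro hli
    have := hli.fintype_card_le_finrank
    omega
  rw [Fintype.not_linearIndependent_iff] at hnli
  obtain ⟨c, hc, i0, hi0⟩ := hnli
  -- the smallest index
  have hmin : ∀ i : Fin (N + 1), (∀ j, j < i → c j = 0) → c i = 0 := by
    intro i hlt
    have h1 : φ i (∑ j, c j • b j) = c i * φ i (b i) := by
      rw [hφadd, Finset.sum_eq_single i]
      · intro j _ hj
        rcases lt_or_gt_of_ne hj with h2 | h2
        · rw [hlt j h2, zero_mul]
        · rw [htri i j h2, mul_zero]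
      · intro h2; exact absurd (Finset.mem_univ _) h2
    rw [hc] at h1
    have h3 : φ i 0 = 0 := by
      simp only [φ, Pi.zero_apply, Matrix.mulVec_zero]
    rw [h3] at h1
    rcases mul_eq_zero.1 h1.symm with h4 | h4
    · exact h4
    · exact absurd h4 (hdiag i)
  have hall : ∀ i : Fin (N + 1), c i = 0 := by
    intro i
    induction i using WellFoundedLT.induction with
    | ind i ih => exact hmin i ih
  exact hi0 (hall i0)

end remove

end Pool.Agent.X251.WA
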