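import Pool.Agent.X251.WA.Words
import Pool.Agent.X251.WA.Lin
import Pool.Agent.Y377.AO.Orb

/-!
Weighted automata and regular sequences on affine varieties.
-/

set_option autoImplicit false

namespace Pool.Agent.X251.WA.A

open Matrix Pool.Agent.TH717.GO Pool.Agent.Y377.AO Pool.Agent.X251.WA

variable {A : Type} {K : Type} [Field K] {n r : ℕ}

/-- the vector represented by a word -/
def pt (M : Matrix (Fin n) (Fin r) K) (μ : A → Matrix (Fin r) (Fin r) K) (v : Fin r → K)
    (w : List A) : Fin n → K := M *ᵥ ((w.map μ).prod *ᵥ v)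

theorem pt_eq (M : Matrix (Fin n) (Fin r) K) (μ : A → Matrix (Fin r) (Fin r) K)
    (v : Fin r → K) (w : List A) : pt M μ v w = M *ᵥ (ev μ w *ᵥ v) := rfl

/-- the number of returns which is sufficient -/
def NA (r D : ℕ) : ℕ := ∑ s ∈ Finset.range (r + 1), bd s D

theorem le_NA {r D s m : ℕ} (hs : s ≤ r) (hm : m ≤ bd s D) : m ≤ NA r D :=
  hm.trans (Finset.single_le_sum (f := fun s => bd s D) (fun _ _ => Nat.zero_le _)
    (Finset.mem_range.2 (by omega)))

theorem NA_mono {r r' D : ℕ} (h : r ≤ r') : NA r D ≤ NA r' D :=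
  Finset.sum_le_sum_of_subset (Finset.range_subset_range.2 (by omega))

theorem length_flatten_lt' {B : Type} (js : List B) (f : B → List A) (hf : ∀ b, f b ≠ [])
    {i j : ℕ} (hij : i < j) (hj : j ≤ js.length) :
    ((js.take i ++ js.drop j).map f).flatten.length < (js.map f).flatten.length := by
  have h1 : js = js.take i ++ ((js.drop i).take (j - i) ++ js.drop j) := by
    have h2 : (js.drop i).drop (j - i) = js.drop j := by
      rw [List.drop_drop]; congr 1; omega
    rw [← h2, List.take_append_drop, List.take_append_drop]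
  have hmid : 0 < (((js.drop i).take (j - i)).map f).flatten.length := by
    have h3 : ((js.drop i).take (j - i)).length ≠ 0 := by
      rw [List.length_take, List.length_drop]; omega
    obtain ⟨b, l, hb⟩ : ∃ b l, (js.drop i).take (j - i) = b :: l := by
      cases h : (js.drop i).take (j - i) with
      | nil => exact absurd (by rw [h]; rfl) h3
      | cons b l => exact ⟨b, l, rfl⟩
    rw [hb, List.map_cons, List.flatten_cons, List.length_append]
    have := List.length_pos_iff.2 (hf b)
    omega
  have h4 : (js.map f).flatten.length = ((js.take i).map f).flatten.length +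
      ((((js.drop i).take (j - i)).map f).flatten.length + ((js.drop j).map f).flatten.length) := by
    conv_lhs => rw [h1]
    simp only [List.map_append, List.flatten_append, List.length_append]
  rw [h4]
  simp only [List.map_append, List.flatten_append, List.length_append]
  omega

/-- removing factors: two initial products in one coset of a normal subgroup -/
theorem exists_removeA {H : Type} [Group H] (Nn : Subgroup H) (hn : Nn.Normal)
    (hfin : Nn.index ≠ 0) (ts : List H) (hts : Nn.index ≤ ts.length) :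
    ∃ i j : ℕ, i < j ∧ j ≤ ts.length ∧
      ts.prod⁻¹ * ((ts.take i).prod * (ts.drop j).prod) ∈ Nn := by
  classical
  have hFI : Nn.FiniteIndex := ⟨hfin⟩
  have hfinq : Fintype (H ⧸ Nn) := Fintype.ofFinite _
  have hcard : Fintype.card (H ⧸ Nn) < Fintype.card (Fin (ts.length + 1)) := by
    rw [Fintype.card_fin, ← Nat.card_eq_fintype_card, ← Subgroup.index_eq_card]
    omega
  obtain ⟨a, b, hab, heq⟩ := Fintype.exists_ne_map_eq_of_card_lt
    (fun i : Fin (ts.length + 1) => (QuotientGroup.mk (ts.take (i : ℕ)).prod : H ⧸ Nn)) hcard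
  have key : ∀ i j : ℕ, i < j → j ≤ ts.length →
      (QuotientGroup.mk (ts.take i).prod : H ⧸ Nn) = QuotientGroup.mk (ts.take j).prod →
      ts.prod⁻¹ * ((ts.take i).prod * (ts.drop j).prod) ∈ Nn := by
    intro i j hij hj h
    have h1 : (ts.take j).prod⁻¹ * (ts.take i).prod ∈ Nn := QuotientGroup.eq.1 h.symm
    have h2 : ts.prod = (ts.take j).prod * (ts.drop j).prod := by
      rw [← List.prod_append, List.take_append_drop]
    rw [h2, _root_.mul_inv_rev]
    have h3 := hn.conj_mem _ h1 (ts.drop j).prod⁻¹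
    simpa [mul_assoc] using h3
  have ha := a.2
  have hb := b.2
  rcases lt_or_gt_of_ne (fun h => hab (Fin.ext h) : (a : ℕ) ≠ b) with h | h
  · exact ⟨a, b, h, by omega, key a b h (by omega) heq⟩
  · exact ⟨b, a, h, by omega, key b a h (by omega) heq.symm⟩

theorem shorter {k : Type} [Field k] {FF GG : Set (MvPolynomial (Fin n) k)} [CharZero K]
    [Algebra k K] (hO : ∀ s, s ≤ r → OCond FF GG s) {D : ℕ} (hD : SpecDeg K D)
    (μ : A → Matrix (Fin r) (Fin r) K) (M : Matrix (Fin n) (Fin r) K) (v : Fin r → K)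
    (hX : ∀ w, ∀ F ∈ FF, MvPolynomial.aeval (pt M μ v w) F = 0) (w : List A)
    (hw : Good μ (NA r D) w)
    (hwG : ∃ G ∈ GG, MvPolynomial.aeval (pt M μ v w) G ≠ 0) :
    ∃ w' : List A, w'.length < w.length ∧ pt M μ v w' = pt M μ v w := by
  classical
  obtain ⟨x, q, vs, z, hq, hlen, hweq, hrk⟩ := hw
  set Q0 := ev μ q with hQ0
  have hblock : ∀ vs : List (List A), ev μ (vs.map (q ++ ·)).flatten =
      ((vs.map (ev μ)).map (Q0 * ·)).prod := by
    intro vs
    rw [ev_flatten, List.map_map, List.map_map]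
    congr 1
    refine List.map_congr_left fun v _ => ?_
    exact ev_append μ q v
  have hrk' : (((vs.map (ev μ)).map (Q0 * ·)).prod * Q0).rank = Q0.rank := by
    rw [← hblock, ← ev_append]; exact hrk
  obtain ⟨s, J, hs, hJ, hE⟩ := exists_restrict Q0 (vs.map (ev μ)) hrk'
  have hE' : ∀ j : Fin vs.length, ∃ g : Matrix.GeneralLinearGroup (Fin s) K,
      (Q0 * ev μ (vs.get j)) * J = J * (g : Matrix (Fin s) (Fin s) K) := fun j =>
    hE _ (List.mem_map.2 ⟨_, List.get_mem _ _, rfl⟩)
  choose g hg using hE'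
  let ρ : FreeGroup (Fin vs.length) →* Matrix.GeneralLinearGroup (Fin s) K := FreeGroup.lift g
  have hρ : ∀ j, ρ (FreeGroup.of j) = g j := fun j => FreeGroup.lift_apply_of
  obtain ⟨u, hu⟩ := hJ (ev μ z *ᵥ v)
  let M' : Matrix (Fin n) (Fin s) K := M * ev μ x * J
  have hmul : ∀ (a b : FreeGroup (Fin vs.length)) (y : Fin s → K),
      (ρ (a * b) : Matrix (Fin s) (Fin s) K) *ᵥ y =
        (ρ a : Matrix (Fin s) (Fin s) K) *ᵥ ((ρ b : Matrix (Fin s) (Fin s) K) *ᵥ y) := by
    intro a b y
    rw [map_mul, Units.val_mul, Matrix.mulVec_mulVec]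
  let fb : Fin vs.length → List A := fun j => q ++ vs.get j
  have hJρ : ∀ js : List (Fin vs.length),
      J *ᵥ ((ρ (js.map FreeGroup.of).prod : Matrix (Fin s) (Fin s) K) *ᵥ u) =
        ev μ (js.map fb).flatten *ᵥ (J *ᵥ u) := by
    intro js
    induction js with
    | nil => simp [ev_nil]
    | cons j js ih =>
      rw [List.map_cons, List.prod_cons, hmul, hρ, Matrix.mulVec_mulVec, ← hg j,
        ← Matrix.mulVec_mulVec, ih, List.map_cons, List.flatten_cons, ev_append,
        ← Matrix.mulVec_mulVec]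
      have h1 : ev μ (fb j) = Q0 * ev μ (vs.get j) := ev_append μ q (vs.get j)
      rw [h1]
      simp only [Matrix.mulVec_mulVec, Matrix.mul_assoc]
  have hpt : ∀ js : List (Fin vs.length),
      orbA M' ρ u (js.map FreeGroup.of).prod =
        pt M μ v (x ++ (js.map fb).flatten ++ q ++ z) := by
    intro js
    unfold orbA
    rw [pt_eq]
    change (M * ev μ x * J) *ᵥ _ = _
    rw [← Matrix.mulVec_mulVec, hJρ, ← hu, ev_append, ev_append, ev_append,
      ← Matrix.mulVec_mulVec, ← Matrix.mulVec_mulVec, ← Matrix.mulVec_mulVec,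
      ← Matrix.mulVec_mulVec]
  -- the group orbit lies on the variety
  have hX' : OnV FF M' ρ u := by
    intro h F hF
    let PF : MvPolynomial (Fin s) K := MvPolynomial.aeval
      (fun i => ∑ j, MvPolynomial.C (M' i j) * MvPolynomial.X j) F
    have hPF : ∀ y : Fin s → K, MvPolynomial.eval y PF = MvPolynomial.aeval (M' *ᵥ y) F := by
      intro y
      have h1 := MvPolynomial.comp_aeval_apply (R := k)
        (fun i => ∑ j, MvPolynomial.C (M' i j) * MvPolynomial.X j :
          Fin n → MvPolynomial (Fin s) K)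
        ((MvPolynomial.aeval y : MvPolynomial (Fin s) K →ₐ[K] K).restrictScalars k) F
      have h2 : MvPolynomial.eval y PF =
          ((MvPolynomial.aeval y : MvPolynomial (Fin s) K →ₐ[K] K).restrictScalars k) PF := by
        rw [AlgHom.restrictScalars_apply, MvPolynomial.aeval_eq_eval]
      rw [h2, h1]
      congr 2
      funext i
      rw [AlgHom.restrictScalars_apply, map_sum]
      simp [Matrix.mulVec, dotProduct]
    have h3 := vanish_group ρ u PF (fun l => by
      rw [hPF]
      have h4 := hpt l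
      unfold orbA at h4
      rw [h4]
      exact hX _ F hF) h
    rw [hPF] at h3
    exact h3
  have hfg : Group.FG (FreeGroup (Fin vs.length)) := inferInstance
  obtain ⟨hidx, hdvd⟩ := NN_index_bd hD hfg ρ
  let js : List (Fin vs.length) := List.finRange vs.length
  let ts : List (FreeGroup (Fin vs.length)) := js.map FreeGroup.of
  have hfull : pt M μ v w = orbA M' ρ u ts.prod := by
    rw [hpt, hweq]
    congr 4
    rw [show js.map fb = (js.map vs.get).map (q ++ ·) by rw [List.map_map]; rfl]
    exact congrArg (fun l => (List.map (q ++ ·) l).flatten) (List.map_get_finRange vs).symm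
  obtain ⟨i, j, hij, hjN, hmem⟩ := exists_removeA (NN ρ) inferInstance hidx ts (by
    have h1 : (NN ρ).index ≤ bd s D := Nat.le_of_dvd (bd_pos s D) hdvd
    have h2 := le_NA hs h1
    simp only [ts, js, List.length_map, List.length_finRange]
    omega)
  have hneat := neat_constA (hO s hs) M' ρ u hX' _ hmem ts.prod (by rw [← hfull]; exact hwG)
  rw [mul_inv_cancel_left] at hneat
  have hh' : (ts.take i).prod * (ts.drop j).prod =
      ((js.take i ++ js.drop j).map FreeGroup.of).prod := by
    rw [List.map_append, List.prod_append, List.map_take, List.map_drop]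
  rw [hh', hpt, ← hfull] at hneat
  refine ⟨x ++ ((js.take i ++ js.drop j).map fb).flatten ++ q ++ z, ?_, hneat⟩
  have h1 := length_flatten_lt' js fb (fun b => by
    intro h0
    exact hq (List.append_eq_nil_iff.1 h0).1) hij (by
      simpa [ts] using hjN)
  have h2 : w.length = (x ++ (js.map fb).flatten ++ q ++ z).length := by
    rw [hweq]
    congr 4
    rw [show js.map fb = (js.map vs.get).map (q ++ ·) by rw [List.map_map]; rfl]
    exact congrArg (fun l => (List.map (q ++ ·) l).flatten) (List.map_get_finRange vs).symm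
  rw [h2]
  simp only [List.length_append] at h1 ⊢
  omega

/-- **Points off the zero set of `GG` are represented by short words.** -/
theorem reduce {k : Type} [Field k] {FF GG : Set (MvPolynomial (Fin n) k)} [CharZero K]
    [Algebra k K] (hO : ∀ s, s ≤ r → OCond FF GG s) {D : ℕ} (hD : SpecDeg K D) [Fintype A]
    (μ : A → Matrix (Fin r) (Fin r) K) (M : Matrix (Fin n) (Fin r) K) (v : Fin r → K)
    (hX : ∀ w, ∀ F ∈ FF, MvPolynomial.aeval (pt M μ v w) F = 0) :
    ∀ (L : ℕ) (w : List A), w.length = L →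
      (∃ G ∈ GG, MvPolynomial.aeval (pt M μ v w) G ≠ 0) →
      ∃ w' : List A, w'.length < Lam (NA r D) (Fintype.card A) (r + 1) ∧
        pt M μ v w' = pt M μ v w := by
  intro L
  induction L using Nat.strong_induction_on with
  | _ L ih =>
    intro w hwL hwG
    by_cases hs : w.length < Lam (NA r D) (Fintype.card A) (r + 1)
    · exact ⟨w, hs, rfl⟩
    · have hgood := good_of_long μ (NA r D) w (not_lt.1 hs)
      obtain ⟨w1, h1, h2⟩ := shorter hO hD μ M v hX w hgood hwG
      obtain ⟨w2, h3, h4⟩ := ih w1.length (by omega) w1 rfl (by rw [h2]; exact hwG)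
      exact ⟨w2, h3, h4.trans h2⟩

/-- The vectors represented by the words in `W`. -/
def wordSet (M : Matrix (Fin n) (Fin r) K) (μ : A → Matrix (Fin r) (Fin r) K) (v : Fin r → K)
    (W : Set (List A)) : Set (Fin n → K) := pt M μ v '' W

theorem encard_wordSet_le [Fintype A] (M : Matrix (Fin n) (Fin r) K)
    (μ : A → Matrix (Fin r) (Fin r) K) (v : Fin r → K) (L : ℕ) :
    (wordSet M μ v {w | w.length < L}).encard ≤
      ((∑ i ∈ Finset.range L, Fintype.card A ^ i : ℕ) : ℕ∞) := by
  classical
  let f : (Σ i : Fin L, Fin i → A) → Fin n → K := fun t => pt M μ v (List.ofFn t.2)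
  have hsub : wordSet M μ v {w | w.length < L} ⊆ Set.range f := by
    rintro _ ⟨w, hw, rfl⟩
    refine ⟨⟨⟨w.length, hw⟩, w.get⟩, ?_⟩
    have h2 : List.ofFn w.get = w := List.ofFn_get w
    simp only [f]
    rw [h2]
  refine (Set.encard_le_encard hsub).trans ?_
  have h3 : Set.range f = f '' Set.univ := Set.image_univ.symm
  rw [h3]
  refine (Set.encard_image_le f _).trans ?_
  rw [Set.encard_univ, ENat.card_eq_coe_fintype_card]
  refine le_of_eq ?_
  congr 1
  rw [Fintype.card_sigma]
  simp only [Fintype.card_fun, Fintype.card_fin]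
  rw [Finset.sum_range]

/-! ### Regular sequences -/

/-- The sequence `x` of vectors is `b`-regular of rank at most `r`: its coordinates are in a space
`V` of sequences of dimension at most `r` which contains `(f (b m + c))_m` for `f ∈ V`,
`0 ≤ c < b`. -/
def Reg (b r : ℕ) (x : ℕ → Fin n → K) : Prop :=
  ∃ V : Submodule K (ℕ → K), FiniteDimensional K V ∧ Module.finrank K V ≤ r ∧
    (∀ f ∈ V, ∀ c, c < b → (fun m => f (b * m + c)) ∈ V) ∧ ∀ i, (fun m => x m i) ∈ V

theorem Reg.exists_rep {b r : ℕ} {x : ℕ → Fin n → K} (h : Reg b r x) :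
    ∃ (s : ℕ) (μ : Fin b → Matrix (Fin s) (Fin s) K) (M : Matrix (Fin n) (Fin s) K)
      (v : Fin s → K), s ≤ r ∧ ∀ w : List (Fin b),
        pt M μ v w = x (Nat.ofDigits b (w.map Fin.val)) := by
  classical
  obtain ⟨V, hfd, hrk, hcl, hx⟩ := h
  let s := Module.finrank K V
  let e : Module.Basis (Fin s) K V := Module.finBasis K V
  let T : Fin b → (Fin s → V) := fun c j => ⟨fun m => (e j : ℕ → K) (b * m + c), hcl _ (e j).2 c c.2⟩
  let μ : Fin b → Matrix (Fin s) (Fin s) K := fun c => Matrix.of fun j l => e.repr (T c j) l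
  let v : Fin s → K := fun l => (e l : ℕ → K) 0
  have key : ∀ (w : List (Fin b)) (j : Fin s), ((w.map μ).prod *ᵥ v) j =
      (e j : ℕ → K) (Nat.ofDigits b (w.map Fin.val)) := by
    intro w
    induction w with
    | nil => intro j; simp [v]
    | cons c w ih =>
      intro j
      rw [List.map_cons, List.prod_cons, ← Matrix.mulVec_mulVec, List.map_cons,
        Nat.ofDigits_cons]
      have h1 : (w.map μ).prod *ᵥ v = fun j => (e j : ℕ → K) (Nat.ofDigits b (w.map Fin.val)) :=
        funext ih
      rw [h1]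
      have h2 := congrArg (fun f : V => (f : ℕ → K) (Nat.ofDigits b (w.map Fin.val)))
        (e.sum_repr (T c j))
      simp only [Submodule.coe_sum, Finset.sum_apply, Submodule.coe_smul, Pi.smul_apply,
        smul_eq_mul] at h2
      change ∑ l, μ c j l * (e l : ℕ → K) (Nat.ofDigits b (w.map Fin.val)) = _
      change ∑ l, e.repr (T c j) l * (e l : ℕ → K) (Nat.ofDigits b (w.map Fin.val)) = _
      rw [h2]
      change (e j : ℕ → K) (b * Nat.ofDigits b (w.map Fin.val) + (c : ℕ)) = _
      rw [Nat.add_comm (b * _) (c : ℕ)]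
  let M : Matrix (Fin n) (Fin s) K := Matrix.of fun i l => e.repr ⟨_, hx i⟩ l
  refine ⟨s, μ, M, v, hrk, fun w => ?_⟩
  funext i
  have h2 := congrArg (fun f : V => (f : ℕ → K) (Nat.ofDigits b (w.map Fin.val)))
    (e.sum_repr ⟨_, hx i⟩)
  simp only [Submodule.coe_sum, Finset.sum_apply, Submodule.coe_smul, Pi.smul_apply,
    smul_eq_mul] at h2
  rw [← h2]
  change ∑ l, M i l * ((w.map μ).prod *ᵥ v) l = _
  refine Finset.sum_congr rfl fun l _ => ?_
  rw [key]
  rfl

theorem exists_word {b : ℕ} (hb : 2 ≤ b) (m : ℕ) :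
    ∃ w : List (Fin b), Nat.ofDigits b (w.map Fin.val) = m := by
  refine ⟨(Nat.digits b m).attach.map fun d => ⟨d.1, Nat.digits_lt_base (by omega) d.2⟩, ?_⟩
  have h3 : ((Nat.digits b m).attach.map fun d =>
      (⟨d.1, Nat.digits_lt_base (by omega) d.2⟩ : Fin b)).map Fin.val = Nat.digits b m := by
    simp only [List.map_map]
    exact List.attach_map_subtype_val (Nat.digits b m)
  rw [h3, Nat.ofDigits_digits]

theorem Lam_pos' (N a m : ℕ) : 1 ≤ Lam N a m := by
  induction m with
  | zero => exact le_rfl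
  | succ m ih => exact Nat.mul_pos ih (Nat.succ_pos _)

theorem Lam_mono' {N N' a m m' : ℕ} (ha : 0 < a) (hN : N ≤ N') (hm : m ≤ m') :
    Lam N a m ≤ Lam N' a m' := by
  have h1 : ∀ m, Lam N a m ≤ Lam N' a m := by
    intro m
    induction m with
    | zero => exact le_rfl
    | succ m ih =>
      refine Nat.mul_le_mul ih (Nat.succ_le_succ (Nat.mul_le_mul hN ?_))
      exact Nat.pow_le_pow_right ha ih
  have h2 : Monotone (Lam N' a) := by
    refine monotone_nat_of_le_succ fun m => ?_
    exact Nat.le_mul_of_pos_right _ (Nat.succ_pos _)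
  exact (h1 m).trans (h2 hm)

/-- the values of a regular sequence off the zero set of `GG` occur for small arguments -/
theorem reg_small {k : Type} [Field k] {FF GG : Set (MvPolynomial (Fin n) k)} [CharZero K]
    [Algebra k K] (hO : ∀ s, s ≤ r → OCond FF GG s) {D : ℕ} (hD : SpecDeg K D) {b : ℕ}
    (hb : 2 ≤ b) (x : ℕ → Fin n → K) (hx : Reg b r x)
    (hX : ∀ m, ∀ F ∈ FF, MvPolynomial.aeval (x m) F = 0) (m : ℕ)
    (hm : ∃ G ∈ GG, MvPolynomial.aeval (x m) G ≠ 0) :
    ∃ m', m' < b ^ Lam (NA r D) b (r + 1) ∧ x m' = x m := by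
  obtain ⟨s, μ, M, v, hs, hrep⟩ := hx.exists_rep
  obtain ⟨w, hw⟩ := exists_word hb m
  have hpt : pt M μ v w = x m := by rw [hrep, hw]
  obtain ⟨w', h1, h2⟩ := reduce (r := s) (fun t ht => hO t (ht.trans hs)) hD μ M v
    (fun w F hF => by rw [hrep]; exact hX _ F hF) _ w rfl (by rw [hpt]; exact hm)
  rw [Fintype.card_fin] at h1
  refine ⟨Nat.ofDigits b (w'.map Fin.val), ?_, by rw [← hrep, h2, hpt]⟩
  have h8 := Nat.ofDigits_lt_base_pow_length (b := b) (l := w'.map Fin.val) (by omega) (by
    intro d hd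
    obtain ⟨d', _, rfl⟩ := List.mem_map.1 hd
    exact d'.2)
  refine lt_of_lt_of_le h8 (Nat.pow_le_pow_right (by omega) ?_)
  rw [List.length_map]
  have h9 : Lam (NA s D) b (s + 1) ≤ Lam (NA r D) b (r + 1) :=
    Lam_mono' (by omega) (NA_mono hs) (by omega)
  omega

end Pool.Agent.X251.WA.A
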