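import Pool.Agent.X251.WA.Main
import Pool.Agent.TH717.GO.Hyb2

/-!
On a uniruled variety there are regular sequences of points which are infinite off `G = 0`.
-/

set_option autoImplicit false

namespace Pool.Agent.X251.WA

open Pool.Agent.TH717.GO Pool.Agent.H533R3.SL

variable {n : ℕ}

/-- the polynomial sequence on a nonconstant curve -/
theorem curve_seq {k : Type} [Field k] (FF : Set (MvPolynomial (Fin (n + 1)) k))
    (G : MvPolynomial (Fin (n + 1)) k) {K : Type} [Field K] [CharZero K] [Algebra k K] {N : ℕ}
    (w : Fin N → Fin (n + 1) → K)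
    (h1 : ∀ F ∈ FF, MvPolynomial.aeval (cur w (fun j => (j : ℕ))) F = 0)
    (h2 : ∃ i j, cur w (fun j => (j : ℕ)) i * Polynomial.C ((cur w (fun j => (j : ℕ)) j).eval 1) ≠
        cur w (fun j => (j : ℕ)) j * Polynomial.C ((cur w (fun j => (j : ℕ)) i).eval 1))
    (h3 : MvPolynomial.aeval (fun i => (cur w (fun j => (j : ℕ)) i).eval 1) G ≠ 0) :
    (∀ b, Reg b N fun (m : ℕ) i => (cur w (fun j => (j : ℕ)) i).eval (m : K)) ∧
    (∀ m : ℕ, ∀ F ∈ FF, MvPolynomial.aeval
      (fun i => (cur w (fun j => (j : ℕ)) i).eval (m : K)) F = 0) ∧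
    (seqPts G (fun (m : ℕ) i => (cur w (fun j => (j : ℕ)) i).eval (m : K)) Set.univ).Infinite := by
  classical
  let q : Fin (n + 1) → Polynomial K := cur w (fun j => (j : ℕ))
  have hevG : ∀ (F : MvPolynomial (Fin (n + 1)) k) (t : K), (MvPolynomial.aeval q F).eval t =
      MvPolynomial.aeval (fun i => (q i).eval t) F := by
    intro F t
    exact MvPolynomial.comp_aeval_apply (R := k) q
      ((Polynomial.aeval t : Polynomial K →ₐ[K] K).restrictScalars k) F
  refine ⟨?_, ?_, ?_⟩
  · intro b
    let φ : Polynomial K →ₗ[K] (ℕ → K) :=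
      { toFun := fun P m => P.eval (m : K)
        map_add' := fun P Q => by funext m; simp
        map_smul' := fun c P => by funext m; simp }
    refine ⟨(Polynomial.degreeLT K N).map φ, inferInstance, ?_, ?_, ?_⟩
    · refine (Submodule.finrank_map_le φ _).trans ?_
      rw [(Polynomial.degreeLTEquiv K N).finrank_eq, Module.finrank_fin_fun]
    · rintro _ ⟨P, hP, rfl⟩ c _
      refine ⟨P.comp (Polynomial.C (b : K) * Polynomial.X + Polynomial.C (c : K)), ?_, ?_⟩
      · rw [SetLike.mem_coe, Polynomial.mem_degreeLT] at hP ⊢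
        rcases eq_or_ne P 0 with rfl | hP0
        · simpa using hP
        · refine lt_of_le_of_lt ?_ hP
          rw [Polynomial.degree_eq_natDegree hP0]
          refine Polynomial.degree_le_of_natDegree_le ?_
          refine Polynomial.natDegree_comp_le.trans ?_
          refine (Nat.mul_le_mul_left _ (Polynomial.natDegree_linear_le (a := (b : K)))).trans ?_
          rw [mul_one]
      · funext m
        change Polynomial.eval (m : K) _ = Polynomial.eval ((b * m + c : ℕ) : K) P
        rw [Polynomial.eval_comp]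
        congr 1
        simp
    · intro i
      refine ⟨q i, ?_, rfl⟩
      rw [SetLike.mem_coe, Polynomial.mem_degreeLT, Polynomial.degree_lt_iff_coeff_zero]
      intro m hm
      change (cur w (fun j : Fin N => (j : ℕ)) i).coeff m = 0
      unfold cur
      rw [Polynomial.finsetSum_coeff]
      refine Finset.sum_eq_zero fun j _ => ?_
      rw [Polynomial.coeff_C_mul_X_pow, if_neg]
      intro h
      have h' : m = (j : ℕ) := h
      omega
  · intro m F hF
    rw [← hevG, h1 F hF, Polynomial.eval_zero]
  · intro hfin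
    -- the curve would be constant
    have hG0 : MvPolynomial.aeval q G ≠ 0 := by
      intro h
      apply h3
      have := hevG G 1
      rw [h, Polynomial.eval_zero] at this
      exact this.symm
    obtain ⟨i1, i2, a, b, hab⟩ := Pool.Agent.TH409.SH.nonconst_of q h2
    have hq0 : q i1 ≠ 0 ∨ q i2 ≠ 0 := by
      by_contra h
      push Not at h
      apply hab
      rw [h.1, h.2]
    have h2inj : Function.Injective (fun m : ℕ => (m : K)) := Nat.cast_injective
    -- all but finitely many powers of two are good
    let Q : Polynomial K := MvPolynomial.aeval q G * (if q i1 = 0 then q i2 else q i1)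
    have hQ : Q ≠ 0 := by
      refine mul_ne_zero hG0 ?_
      split_ifs with h
      · rcases hq0 with h' | h'
        · exact absurd h h'
        · exact h'
      · exact h
    let good : Set ℕ := {m | Q.eval ((m : K)) ≠ 0}
    have hgood : goodᶜ.Finite := by
      refine Set.Finite.of_finite_image (f := fun m : ℕ => (m : K)) ?_ h2inj.injOn
      refine (Q.roots.toFinset.finite_toSet).subset ?_
      rintro _ ⟨m, hm, rfl⟩
      have : Q.eval ((m : K)) = 0 := by
        by_contra h
        exact hm h
      simpa [hQ] using this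
    have hginf : good.Infinite := by
      intro h
      have := h.union hgood
      rw [Set.union_compl_self] at this
      exact Set.infinite_univ this
    have hgne : ∀ m ∈ good, (fun i => (q i).eval ((m : K))) ≠ 0 := by
      intro m hm h0
      apply hm
      show (MvPolynomial.aeval q G * (if q i1 = 0 then q i2 else q i1)).eval ((m : K)) = 0
      rw [Polynomial.eval_mul]
      have h5 : ∀ i, (q i).eval ((m : K)) = 0 := fun i => congrFun h0 i
      split_ifs
      · rw [h5, mul_zero]
      · rw [h5, mul_zero]
    have hgG : ∀ m ∈ good, MvPolynomial.aeval (fun i => (q i).eval ((m : K))) G ≠ 0 := by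
      intro m hm h0
      apply hm
      show (MvPolynomial.aeval q G * (if q i1 = 0 then q i2 else q i1)).eval ((m : K)) = 0
      rw [Polynomial.eval_mul, hevG, h0, zero_mul]
    let pt : ℕ → Projectivization K (Fin (n + 1) → K) := fun m =>
      if h : (fun i => (q i).eval ((m : K))) ≠ 0 then Projectivization.mk K _ h
      else Projectivization.mk K (fun _ => 1) (fun h => one_ne_zero (congrFun h 0))
    have hpt : ∀ m ∈ good, pt m ∈ seqPts G (fun (m : ℕ) i => (q i).eval (m : K)) Set.univ := by
      intro m hm
      refine ⟨m, trivial, hgne m hm, hgG m hm, ?_⟩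
      simp only [pt, dif_pos (hgne m hm)]
    obtain ⟨P, -, hP⟩ : ∃ P ∈ seqPts G (fun (m : ℕ) i => (q i).eval (m : K)) Set.univ,
        (good ∩ pt ⁻¹' {P}).Infinite := by
      by_contra hcon
      push Not at hcon
      apply hginf
      have h6 : good ⊆ ⋃ P ∈ seqPts G (fun (m : ℕ) i => (q i).eval (m : K)) Set.univ, good ∩ pt ⁻¹' {P} := by
        intro m hm
        exact Set.mem_biUnion (hpt m hm) ⟨hm, rfl⟩
      exact (Set.Finite.biUnion hfin fun P hP => Set.not_infinite.1 (by
        intro h7
        exact absurd h7 (by simpa using hcon P hP))).subset h6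
    -- the point is constant along infinitely many parameters
    obtain ⟨m0, hm0, hm0P⟩ := hP.nonempty
    have hrel : ∀ i j, q i * Polynomial.C ((q j).eval ((m0 : K))) =
        q j * Polynomial.C ((q i).eval ((m0 : K))) := by
      intro i j
      rw [← sub_eq_zero]
      refine Polynomial.eq_zero_of_infinite_isRoot _ ?_
      refine Set.Infinite.mono ?_ (hP.image h2inj.injOn)
      rintro _ ⟨m, ⟨hm, hmP⟩, rfl⟩
      have h8 : pt m = pt m0 := by
        rw [show pt m = P from hmP, show pt m0 = P from hm0P]
      simp only [pt, dif_pos (hgne m hm), dif_pos (hgne m0 hm0)] at h8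
      rw [Projectivization.mk_eq_mk_iff'] at h8
      obtain ⟨c, hc⟩ := h8
      have hci : ∀ i, c * (q i).eval ((m0 : K)) = (q i).eval ((m : K)) := fun i =>
        congrFun hc i
      show (q i * Polynomial.C ((q j).eval ((m0 : K))) -
        q j * Polynomial.C ((q i).eval ((m0 : K)))).eval ((m : K)) = 0
      rw [Polynomial.eval_sub, Polynomial.eval_mul, Polynomial.eval_mul, Polynomial.eval_C,
        Polynomial.eval_C, ← hci i, ← hci j]
      ring
    obtain ⟨i0, hi0⟩ : ∃ i, (q i).eval ((m0 : K)) ≠ 0 := by
      by_contra h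
      push Not at h
      exact hgne m0 hm0 (funext h)
    apply hab
    have e1 := congrArg (Polynomial.eval a) (hrel i1 i0)
    have e2 := congrArg (Polynomial.eval b) (hrel i2 i0)
    have e3 := congrArg (Polynomial.eval a) (hrel i2 i0)
    have e4 := congrArg (Polynomial.eval b) (hrel i1 i0)
    simp only [Polynomial.eval_mul, Polynomial.eval_C] at e1 e2 e3 e4
    have hne2 : (q i0).eval ((m0 : K)) * (q i0).eval ((m0 : K)) ≠ 0 := mul_ne_zero hi0 hi0
    apply mul_right_cancel₀ hne2
    calc (q i1).eval a * (q i2).eval b * ((q i0).eval ((m0 : K)) * (q i0).eval ((m0 : K)))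
        = ((q i1).eval a * (q i0).eval ((m0 : K))) *
          ((q i2).eval b * (q i0).eval ((m0 : K))) := by ring
      _ = ((q i0).eval a * (q i1).eval ((m0 : K))) *
          ((q i0).eval b * (q i2).eval ((m0 : K))) := by rw [e1, e2]
      _ = ((q i0).eval a * (q i2).eval ((m0 : K))) *
          ((q i0).eval b * (q i1).eval ((m0 : K))) := by ring
      _ = ((q i2).eval a * (q i0).eval ((m0 : K))) *
          ((q i1).eval b * (q i0).eval ((m0 : K))) := by rw [e3, e4]
      _ = (q i2).eval a * (q i1).eval b *
          ((q i0).eval ((m0 : K)) * (q i0).eval ((m0 : K))) := by ring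

/-- on a uniruled variety some polynomial (hence regular) sequences have infinitely many points off
`G = 0` -/
theorem converse_reg {k : Type} [Field k] [NumberField k]
    (FF : Finset (MvPolynomial (Fin (n + 1)) k))
    (hu : Uniruled (Ideal.span (FF : Set (MvPolynomial (Fin (n + 1)) k)))) :
    ∃ r : ℕ, ∀ G : MvPolynomial (Fin (n + 1)) k, (∃ e, G.IsHomogeneous e) →
      G ∉ Ideal.span (FF : Set (MvPolynomial (Fin (n + 1)) k)) →
      ∃ (K : Type) (_ : Field K) (_ : NumberField K) (_ : Algebra k K)
        (x : ℕ → Fin (n + 1) → K), (∀ b, Reg b r x) ∧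
        (∀ m, ∀ F ∈ FF, MvPolynomial.aeval (x m) F = 0) ∧ (seqPts G x Set.univ).Infinite := by
  classical
  obtain ⟨L, iL, iA, p, hp1, hp2, hp3⟩ := hu
  set N : ℕ := Finset.univ.sup (fun i => (p i).natDegree) + 1 with hN
  have hNc : ∀ i m, N ≤ m → (p i).coeff m = 0 := by
    intro i m hm
    apply Polynomial.coeff_eq_zero_of_natDegree_lt
    have := Finset.le_sup (f := fun i => (p i).natDegree) (Finset.mem_univ i)
    omega
  refine ⟨N, ?_⟩
  intro G hG1 hG2
  obtain ⟨K, iK, iN, iAK, w, h1, h2, h3⟩ := Pool.Agent.TH409.SH.specialise k L p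
    (FF : Set (MvPolynomial (Fin (n + 1)) k)) (by
      intro F hF
      exact hp1 F (Ideal.subset_span hF)) N hNc hp3 G (hp2 G hG1 hG2)
  have hcs := curve_seq (FF : Set (MvPolynomial (Fin (n + 1)) k)) G w h1 h2 h3
  exact ⟨K, iK, iN, iAK, _, hcs.1, hcs.2.1, hcs.2.2⟩

/-- a rational curve over `ℂ` gives a polynomial sequence with infinitely many points over a number
field -/
theorem converse_seq {k : Type} [Field k] [NumberField k] (σ : k →+* ℂ)
    (FF : Set (MvPolynomial (Fin (n + 1)) k)) (h : ¬ NoRatC σ FF) :
    ∃ (r : ℕ) (K : Type) (_ : Field K) (_ : NumberField K) (_ : Algebra k K)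
        (x : ℕ → Fin (n + 1) → K), (∀ b, Reg b r x) ∧
        (∀ m, ∀ F ∈ FF, MvPolynomial.aeval (x m) F = 0) ∧
        (seqPts (1 : MvPolynomial (Fin (n + 1)) k) x Set.univ).Infinite := by
  classical
  unfold NoRatC at h
  push Not at h
  obtain ⟨q, hq, i, j, a, b, hab⟩ := h
  let _ : Algebra k ℂ := σ.toAlgebra
  let sh : Polynomial ℂ →+* Polynomial ℂ := Polynomial.compRingHom (Polynomial.X + Polynomial.C (b - 1))
  let p : Fin (n + 1) → Polynomial ℂ := fun i => sh (q i)
  have hpe : ∀ i (t : ℂ), (p i).eval t = (q i).eval (t + (b - 1)) := by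
    intro i t
    show ((q i).comp _).eval t = _
    rw [Polynomial.eval_comp, Polynomial.eval_add, Polynomial.eval_X, Polynomial.eval_C]
  have hp : ∀ F ∈ FF, MvPolynomial.aeval p F = 0 := by
    intro F hF
    have h1 := congrArg sh (hq F hF)
    rw [map_zero, MvPolynomial.hom_eval₂] at h1
    rw [MvPolynomial.aeval_def]
    have h2 : sh.comp (Polynomial.C.comp σ) = algebraMap k (Polynomial ℂ) := by
      refine RingHom.ext fun x => ?_
      show (Polynomial.C (σ x)).comp _ = _
      rw [Polynomial.C_comp, Polynomial.algebraMap_apply]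
      rfl
    rw [← h2]
    exact h1
  set N : ℕ := Finset.univ.sup (fun i => (p i).natDegree) + 1 with hN
  have hNc : ∀ i m, N ≤ m → (p i).coeff m = 0 := by
    intro i m hm
    apply Polynomial.coeff_eq_zero_of_natDegree_lt
    have := Finset.le_sup (f := fun i => (p i).natDegree) (Finset.mem_univ i)
    omega
  obtain ⟨K, iK, iN, iAK, w, h1, h2, h3⟩ := Pool.Agent.TH409.SH.specialise k ℂ p FF hp N hNc
    ⟨i, j, fun heq => hab (by
      have h4 := congrArg (Polynomial.eval (a - (b - 1))) heq
      rw [Polynomial.eval_mul, Polynomial.eval_mul, Polynomial.eval_C, Polynomial.eval_C, hpe, hpe,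
        hpe, hpe] at h4
      simpa using h4)⟩ 1 (by rw [map_one]; exact one_ne_zero)
  have hcs := curve_seq FF 1 w h1 h2 h3
  exact ⟨N, K, iK, iN, iAK, _, hcs.1, hcs.2.1, hcs.2.2⟩

end Pool.Agent.X251.WA
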