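import Pool.Agent.X251.WA.Short
import Pool.Agent.TH717.GO.Hyp
import Pool.Agent.TH717.GO.Conv

/-!
Weighted automata and regular sequences on varieties that are not uniruled.
-/

set_option autoImplicit false

namespace Pool.Agent.X251.WA

open Matrix Pool.Agent.TH717.GO Pool.Agent.H533R3.SL

variable {A : Type} {K : Type} [Field K] {n r : ℕ}

/-- `y` is a nonzero multiple of `x` -/
theorem exists_scale {x y : Fin (n + 1) → K} (hx : x ≠ 0) (hy : y ≠ 0)
    (h : ∀ i i', y i * x i' = y i' * x i) : ∃ c : K, c ≠ 0 ∧ ∀ i, y i = c * x i := by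
  obtain ⟨j, hj⟩ := Function.ne_iff.1 hx
  have hj' : x j ≠ 0 := hj
  refine ⟨y j / x j, ?_, fun i => ?_⟩
  · refine div_ne_zero (fun h0 => hy ?_) hj'
    funext i
    have h1 := h i j
    rw [h0, zero_mul] at h1
    exact (mul_eq_zero.1 h1).resolve_right hj'
  · rw [div_mul_eq_mul_div, eq_div_iff hj']
    exact h i j

/-- **Points off `G = 0` are represented by short words.** -/
theorem reduce {k : Type} [Field k] [CharZero k]
    (FF : Set (MvPolynomial (Fin (n + 1)) k)) (hhom : ∀ F ∈ FF, ∃ e, F.IsHomogeneous e)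
    (G : MvPolynomial (Fin (n + 1)) k) (hGh : ∃ e, G.IsHomogeneous e)
    (hG : CurCond FF G (r * r)) [Algebra k K] {D : ℕ} (hD : SpecDeg K D) [Fintype A]
    (μ : A → Matrix (Fin r) (Fin r) K) (M : Matrix (Fin (n + 1)) (Fin r) K) (v : Fin r → K)
    (hX : ∀ w, ∀ F ∈ FF, MvPolynomial.aeval (pt M μ v w) F = 0) :
    ∀ (L : ℕ) (w : List A), w.length = L → pt M μ v w ≠ 0 →
      MvPolynomial.aeval (pt M μ v w) G ≠ 0 →
      ∃ w' : List A, w'.length < Lam (NB r D) (Fintype.card A) (r + 1) ∧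
        MvPolynomial.aeval (pt M μ v w') G ≠ 0 ∧
        ∃ c : K, c ≠ 0 ∧ ∀ i, pt M μ v w' i = c * pt M μ v w i := by
  intro L
  induction L using Nat.strong_induction_on with
  | _ L ih =>
    intro w hwL hw0 hwG
    by_cases hs : w.length < Lam (NB r D) (Fintype.card A) (r + 1)
    · exact ⟨w, hs, hwG, 1, one_ne_zero, fun i => (one_mul _).symm⟩
    · have hgood := good_of_long μ (NB r D) w (not_lt.1 hs)
      obtain ⟨w1, h1, h2, h3⟩ := shorter FF hhom G hGh hG hD μ M v hX w hgood hw0 hwG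
      obtain ⟨c, hc0, hc⟩ := exists_scale hw0 h2 h3
      have hG1 := aeval_smul_ne G hGh _ _ c hc0 hc hwG
      obtain ⟨w2, h4, h5, c', hc'0, hc'⟩ := ih w1.length (by omega) w1 rfl h2 hG1
      exact ⟨w2, h4, h5, c' * c, mul_ne_zero hc'0 hc0, fun i => by rw [hc', hc, mul_assoc]⟩

/-- The points represented by the words in `W`, outside of `G = 0`. -/
def wordPts {k : Type} [Field k] [Algebra k K] (G : MvPolynomial (Fin (n + 1)) k)
    (M : Matrix (Fin (n + 1)) (Fin r) K) (μ : A → Matrix (Fin r) (Fin r) K) (v : Fin r → K)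
    (W : Set (List A)) : Set (Projectivization K (Fin (n + 1) → K)) :=
  {P | ∃ w ∈ W, ∃ h0 : pt M μ v w ≠ 0, MvPolynomial.aeval (pt M μ v w) G ≠ 0 ∧
    P = Projectivization.mk K (pt M μ v w) h0}

theorem wordPts_mono {k : Type} [Field k] [Algebra k K] (G : MvPolynomial (Fin (n + 1)) k)
    (M : Matrix (Fin (n + 1)) (Fin r) K) (μ : A → Matrix (Fin r) (Fin r) K) (v : Fin r → K)
    {W W' : Set (List A)} (h : W ⊆ W') : wordPts G M μ v W ⊆ wordPts G M μ v W' := by
  rintro P ⟨w, hw, h0, h1, h2⟩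
  exact ⟨w, h hw, h0, h1, h2⟩

theorem wordPts_eq {k : Type} [Field k] [CharZero k]
    (FF : Set (MvPolynomial (Fin (n + 1)) k)) (hhom : ∀ F ∈ FF, ∃ e, F.IsHomogeneous e)
    (G : MvPolynomial (Fin (n + 1)) k) (hGh : ∃ e, G.IsHomogeneous e)
    (hG : CurCond FF G (r * r)) [Algebra k K] {D : ℕ} (hD : SpecDeg K D) [Fintype A]
    (μ : A → Matrix (Fin r) (Fin r) K) (M : Matrix (Fin (n + 1)) (Fin r) K) (v : Fin r → K)
    (hX : ∀ w, ∀ F ∈ FF, MvPolynomial.aeval (pt M μ v w) F = 0) :
    wordPts G M μ v Set.univ =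
      wordPts G M μ v {w | w.length < Lam (NB r D) (Fintype.card A) (r + 1)} := by
  apply Set.Subset.antisymm
  · rintro P ⟨w, -, h0, h1, rfl⟩
    obtain ⟨w', h2, h3, c, hc0, hc⟩ := reduce FF hhom G hGh hG hD μ M v hX _ w rfl h0 h1
    have h0' : pt M μ v w' ≠ 0 := by
      intro h4
      apply h0
      funext i
      have h5 := hc i
      rw [h4, Pi.zero_apply] at h5
      exact (mul_eq_zero.1 h5.symm).resolve_left hc0
    refine ⟨w', h2, h0', h3, ?_⟩
    rw [Projectivization.mk_eq_mk_iff']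
    refine ⟨c⁻¹, ?_⟩
    funext i
    rw [Pi.smul_apply, smul_eq_mul, hc i, inv_mul_cancel_left₀ hc0]
  · exact wordPts_mono G M μ v (Set.subset_univ _)

/-- the number of words of length less than `L` -/
theorem encard_wordPts_le {k : Type} [Field k] [Algebra k K] [Fintype A]
    (G : MvPolynomial (Fin (n + 1)) k)
    (M : Matrix (Fin (n + 1)) (Fin r) K) (μ : A → Matrix (Fin r) (Fin r) K) (v : Fin r → K)
    (L : ℕ) : (wordPts G M μ v {w | w.length < L}).encard ≤
      ((∑ i ∈ Finset.range L, Fintype.card A ^ i : ℕ) : ℕ∞) := by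
  classical
  let f : (Σ i : Fin L, Fin i → A) → Projectivization K (Fin (n + 1) → K) := fun t =>
    if h : pt M μ v (List.ofFn t.2) ≠ 0 then Projectivization.mk K _ h
    else Projectivization.mk K (fun _ => 1) (fun h => one_ne_zero (congrFun h 0))
  have hsub : wordPts G M μ v {w | w.length < L} ⊆ Set.range f := by
    rintro P ⟨w, hw, h0, h1, rfl⟩
    refine ⟨⟨⟨w.length, hw⟩, w.get⟩, ?_⟩
    have h2 : List.ofFn w.get = w := List.ofFn_get w
    simp only [f]
    rw [dif_pos (by rw [h2]; exact h0)]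
    rw [Projectivization.mk_eq_mk_iff']
    exact ⟨1, by rw [one_smul, h2]⟩
  refine (Set.encard_le_encard hsub).trans ?_
  have h3 : Set.range f = f '' Set.univ := Set.image_univ.symm
  rw [h3]
  refine (Set.encard_image_le f _).trans ?_
  rw [Set.encard_univ, ENat.card_eq_coe_fintype_card]
  refine le_of_eq ?_
  congr 1
  rw [Fintype.card_sigma]
  simp only [Fintype.card_fun, Fintype.card_fin]
  rw [Finset.sum_range]

/-! ### Regular sequences -/

/-- The sequence `x` of vectors is `b`-regular of rank at most `r`: the sequences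
`m ↦ x (b ^ j m + c) i` (`0 ≤ c < b ^ j`) lie in a space of sequences of dimension at most `r`. -/
def Reg (b r : ℕ) (x : ℕ → Fin (n + 1) → K) : Prop :=
  ∃ V : Submodule K (ℕ → K), FiniteDimensional K V ∧ Module.finrank K V ≤ r ∧
    (∀ f ∈ V, ∀ c, c < b → (fun m => f (b * m + c)) ∈ V) ∧ ∀ i, (fun m => x m i) ∈ V

/-- the points `x m`, `m ∈ S`, outside of `G = 0` -/
def seqPts {k : Type} [Field k] [Algebra k K] (G : MvPolynomial (Fin (n + 1)) k)
    (x : ℕ → Fin (n + 1) → K) (S : Set ℕ) : Set (Projectivization K (Fin (n + 1) → K)) :=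
  {P | ∃ m ∈ S, ∃ h0 : x m ≠ 0, MvPolynomial.aeval (x m) G ≠ 0 ∧
    P = Projectivization.mk K (x m) h0}

theorem Lam_pos (N a m : ℕ) : 1 ≤ Lam N a m := by
  induction m with
  | zero => exact le_rfl
  | succ m ih => exact Nat.mul_pos ih (Nat.succ_pos _)

theorem Lam_mono {N N' a m m' : ℕ} (ha : 0 < a) (hN : N ≤ N') (hm : m ≤ m') :
    Lam N a m ≤ Lam N' a m' := by
  have h1 : ∀ m, Lam N a m ≤ Lam N' a m := by
    intro m
    induction m with
    | zero => exact le_rfl
    | succ m ih =>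
      refine Nat.mul_le_mul ih (Nat.succ_le_succ (Nat.mul_le_mul hN ?_))
      exact Nat.pow_le_pow_right ha ih
  have h2 : Monotone (Lam N' a) := by
    refine monotone_nat_of_le_succ fun m => ?_
    exact Nat.le_mul_of_pos_right _ (Nat.succ_pos _)
  exact (h1 m).trans (h2 hm)

theorem NB_mono {r r' D : ℕ} (h : r ≤ r') : NB r D ≤ NB r' D := by
  unfold NB
  refine Nat.mul_le_mul h (Finset.sum_le_sum_of_subset ?_)
  exact Finset.range_subset_range.2 (by omega)

theorem Reg.exists_rep {b r : ℕ} {x : ℕ → Fin (n + 1) → K} (h : Reg b r x) :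
    ∃ (s : ℕ) (μ : Fin b → Matrix (Fin s) (Fin s) K) (M : Matrix (Fin (n + 1)) (Fin s) K)
      (v : Fin s → K), s ≤ r ∧ ∀ w : List (Fin b),
        pt M μ v w = x (Nat.ofDigits b (w.map Fin.val)) := by
  classical
  obtain ⟨V, hfd, hrk, hcl, hx⟩ := h
  let s := Module.finrank K V
  let e : Module.Basis (Fin s) K V := Module.finBasis K V
  let T : Fin b → (Fin s → V) := fun c j => ⟨fun m => (e j : ℕ → K) (b * m + c), hcl _ (e j).2 c c.2⟩
  let μ : Fin b → Matrix (Fin s) (Fin s) K := fun c => Matrix.of fun j l => e.repr (T c j) l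
  let v : Fin s → K := fun l => (e l : ℕ → K) 0
  have key : ∀ (w : List (Fin b)) (j : Fin s), ((w.map μ).prod *ᵥ v) j =
      (e j : ℕ → K) (Nat.ofDigits b (w.map Fin.val)) := by
    intro w
    induction w with
    | nil => intro j; simp [v]
    | cons c w ih =>
      intro j
      rw [List.map_cons, List.prod_cons, ← Matrix.mulVec_mulVec, List.map_cons,
        Nat.ofDigits_cons]
      have h1 : (w.map μ).prod *ᵥ v = fun j => (e j : ℕ → K) (Nat.ofDigits b (w.map Fin.val)) :=
        funext ih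
      rw [h1]
      have h2 := congrArg (fun f : V => (f : ℕ → K) (Nat.ofDigits b (w.map Fin.val)))
        (e.sum_repr (T c j))
      simp only [Submodule.coe_sum, Finset.sum_apply, Submodule.coe_smul, Pi.smul_apply,
        smul_eq_mul] at h2
      change ∑ l, μ c j l * (e l : ℕ → K) (Nat.ofDigits b (w.map Fin.val)) = _
      change ∑ l, e.repr (T c j) l * (e l : ℕ → K) (Nat.ofDigits b (w.map Fin.val)) = _
      rw [h2]
      change (e j : ℕ → K) (b * Nat.ofDigits b (w.map Fin.val) + (c : ℕ)) = _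
      rw [Nat.add_comm (b * _) (c : ℕ)]
  let M : Matrix (Fin (n + 1)) (Fin s) K := Matrix.of fun i l => e.repr ⟨_, hx i⟩ l
  refine ⟨s, μ, M, v, hrk, fun w => ?_⟩
  funext i
  have h2 := congrArg (fun f : V => (f : ℕ → K) (Nat.ofDigits b (w.map Fin.val)))
    (e.sum_repr ⟨_, hx i⟩)
  simp only [Submodule.coe_sum, Finset.sum_apply, Submodule.coe_smul, Pi.smul_apply,
    smul_eq_mul] at h2
  rw [← h2]
  change ∑ l, M i l * ((w.map μ).prod *ᵥ v) l = _
  refine Finset.sum_congr rfl fun l _ => ?_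
  rw [key]
  rfl

theorem seqPts_eq {k : Type} [Field k] [CharZero k]
    (FF : Set (MvPolynomial (Fin (n + 1)) k)) (hhom : ∀ F ∈ FF, ∃ e, F.IsHomogeneous e)
    (G : MvPolynomial (Fin (n + 1)) k) (hGh : ∃ e, G.IsHomogeneous e)
    (hG : CurCond FF G (r * r)) [Algebra k K] {D : ℕ} (hD : SpecDeg K D) {b : ℕ} (hb : 2 ≤ b)
    (x : ℕ → Fin (n + 1) → K) (hx : Reg b r x)
    (hX : ∀ m, ∀ F ∈ FF, MvPolynomial.aeval (x m) F = 0) :
    seqPts G x Set.univ = seqPts G x {m | m < b ^ Lam (NB r D) b (r + 1)} := by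
  obtain ⟨s, μ, M, v, hs, hrep⟩ := hx.exists_rep
  have hGs : CurCond FF G (s * s) := CurCond.mono hG (Nat.mul_le_mul hs hs)
  have h1 := wordPts_eq FF hhom G hGh hGs hD μ M v (fun w F hF => by rw [hrep]; exact hX _ F hF)
  rw [Fintype.card_fin] at h1
  apply Set.Subset.antisymm
  · rintro P ⟨m, -, h0, hm, rfl⟩
    let w : List (Fin b) := (Nat.digits b m).attach.map fun d =>
      ⟨d.1, Nat.digits_lt_base (by omega) d.2⟩
    have hw : Nat.ofDigits b (w.map Fin.val) = m := by
      have h3 : w.map Fin.val = Nat.digits b m := by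
        simp only [w, List.map_map]
        exact List.attach_map_subtype_val (Nat.digits b m)
      rw [h3, Nat.ofDigits_digits]
    have hpt : pt M μ v w = x m := by rw [hrep, hw]
    have h4 : Projectivization.mk K (x m) h0 ∈ wordPts G M μ v Set.univ := by
      refine ⟨w, trivial, by rw [hpt]; exact h0, by rw [hpt]; exact hm, ?_⟩
      rw [Projectivization.mk_eq_mk_iff']
      exact ⟨1, by rw [one_smul, hpt]⟩
    rw [h1] at h4
    obtain ⟨w', hw', h5, h6, h7⟩ := h4
    refine ⟨Nat.ofDigits b (w'.map Fin.val), ?_, by rw [← hrep]; exact h5,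
      by rw [← hrep]; exact h6, ?_⟩
    · have h8 := Nat.ofDigits_lt_base_pow_length (b := b) (l := w'.map Fin.val) (by omega) (by
        intro d hd
        obtain ⟨d', _, rfl⟩ := List.mem_map.1 hd
        exact d'.2)
      refine lt_of_lt_of_le h8 (Nat.pow_le_pow_right (by omega) ?_)
      rw [List.length_map]
      have h9 : Lam (NB s D) b (s + 1) ≤ Lam (NB r D) b (r + 1) :=
        Lam_mono (by omega) (NB_mono hs) (by omega)
      have h10 : w'.length < Lam (NB s D) b (s + 1) := hw'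
      omega
    · rw [h7, Projectivization.mk_eq_mk_iff']
      exact ⟨1, by rw [one_smul, hrep]⟩
  · rintro P ⟨m, -, h0, hm, rfl⟩
    exact ⟨m, trivial, h0, hm, rfl⟩

end Pool.Agent.X251.WA
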