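import Pool.Agent.X251.WA.Words
import Pool.Agent.X251.WA.Lin
import Pool.Agent.TH717.GO.UC

/-!
A point off `G = 0` which is represented by a long word is represented by a shorter word.
-/

set_option autoImplicit false

namespace Pool.Agent.X251.WA

open Matrix Pool.Agent.TH717.GO

variable {A : Type} {K : Type} [Field K] {n r : ℕ}

/-- the vector represented by a word -/
def pt (M : Matrix (Fin (n + 1)) (Fin r) K) (μ : A → Matrix (Fin r) (Fin r) K) (v : Fin r → K)
    (w : List A) : Fin (n + 1) → K := M *ᵥ ((w.map μ).prod *ᵥ v)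

theorem pt_eq (M : Matrix (Fin (n + 1)) (Fin r) K) (μ : A → Matrix (Fin r) (Fin r) K)
    (v : Fin r → K) (w : List A) : pt M μ v w = M *ᵥ (ev μ w *ᵥ v) := rfl

theorem CurCond.mono {k : Type} [Field k] {FF : Set (MvPolynomial (Fin (n + 1)) k)}
    {G : MvPolynomial (Fin (n + 1)) k} {R R' : ℕ} (h : CurCond FF G R) (hR : R' ≤ R) :
    CurCond FF G R' :=
  fun L _ _ p S hS => h L p S (hS.trans hR)

/-- the number of returns which is sufficient -/
def NB (r D : ℕ) : ℕ := r * ∑ s ∈ Finset.range (r + 1), bd s D

theorem le_NB {r D s m : ℕ} (hs : s ≤ r) (hm : m ≤ bd s D) : s * m ≤ NB r D := by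
  unfold NB
  have h1 : bd s D ≤ ∑ s ∈ Finset.range (r + 1), bd s D :=
    Finset.single_le_sum (f := fun s => bd s D) (fun _ _ => Nat.zero_le _)
      (Finset.mem_range.2 (by omega))
  exact Nat.mul_le_mul hs (hm.trans h1)

theorem length_flatten_lt {B : Type} (js : List B) (f : B → List A) (hf : ∀ b, f b ≠ []) {i j : ℕ}
    (hij : i < j) (hj : j ≤ js.length) :
    ((js.take i ++ js.drop j).map f).flatten.length < (js.map f).flatten.length := by
  have h1 : js = js.take i ++ ((js.drop i).take (j - i) ++ js.drop j) := by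
    have h2 : (js.drop i).drop (j - i) = js.drop j := by
      rw [List.drop_drop]; congr 1; omega
    rw [← h2, List.take_append_drop, List.take_append_drop]
  have hmid : 0 < (((js.drop i).take (j - i)).map f).flatten.length := by
    have h3 : ((js.drop i).take (j - i)).length ≠ 0 := by
      rw [List.length_take, List.length_drop]; omega
    obtain ⟨b, l, hb⟩ : ∃ b l, (js.drop i).take (j - i) = b :: l := by
      cases h : (js.drop i).take (j - i) with
      | nil => exact absurd (by rw [h]; rfl) h3
      | cons b l => exact ⟨b, l, rfl⟩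
    rw [hb, List.map_cons, List.flatten_cons, List.length_append]
    have := List.length_pos_iff.2 (hf b)
    omega
  have h4 : (js.map f).flatten.length = ((js.take i).map f).flatten.length +
      ((((js.drop i).take (j - i)).map f).flatten.length + ((js.drop j).map f).flatten.length) := by
    conv_lhs => rw [h1]
    simp only [List.map_append, List.flatten_append, List.length_append]
  rw [h4]
  simp only [List.map_append, List.flatten_append, List.length_append]
  omega

theorem shorter {k : Type} [Field k] [CharZero k]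
    (FF : Set (MvPolynomial (Fin (n + 1)) k)) (hhom : ∀ F ∈ FF, ∃ e, F.IsHomogeneous e)
    (G : MvPolynomial (Fin (n + 1)) k) (hGh : ∃ e, G.IsHomogeneous e)
    (hG : CurCond FF G (r * r)) [Algebra k K] {D : ℕ} (hD : SpecDeg K D)
    (μ : A → Matrix (Fin r) (Fin r) K) (M : Matrix (Fin (n + 1)) (Fin r) K) (v : Fin r → K)
    (hX : ∀ w, ∀ F ∈ FF, MvPolynomial.aeval (pt M μ v w) F = 0) (w : List A)
    (hw : Good μ (NB r D) w) (hw0 : pt M μ v w ≠ 0)
    (hwG : MvPolynomial.aeval (pt M μ v w) G ≠ 0) :
    ∃ w' : List A, w'.length < w.length ∧ pt M μ v w' ≠ 0 ∧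
      ∀ i i', pt M μ v w' i * pt M μ v w i' = pt M μ v w' i' * pt M μ v w i := by
  classical
  have hK0 : CharZero K := charZero_of_injective_algebraMap (FaithfulSMul.algebraMap_injective k K)
  obtain ⟨x, q, vs, z, hq, hlen, hweq, hrk⟩ := hw
  set Q0 := ev μ q with hQ0
  have hblock : ∀ vs : List (List A), ev μ (vs.map (q ++ ·)).flatten =
      ((vs.map (ev μ)).map (Q0 * ·)).prod := by
    intro vs
    rw [ev_flatten, List.map_map, List.map_map]
    congr 1
    refine List.map_congr_left fun v _ => ?_
    exact ev_append μ q v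
  have hrk' : (((vs.map (ev μ)).map (Q0 * ·)).prod * Q0).rank = Q0.rank := by
    rw [← hblock, ← ev_append]; exact hrk
  obtain ⟨s, J, hs, hJ, hE⟩ := exists_restrict Q0 (vs.map (ev μ)) hrk'
  have hE' : ∀ j : Fin vs.length, ∃ g : Matrix.GeneralLinearGroup (Fin s) K,
      (Q0 * ev μ (vs.get j)) * J = J * (g : Matrix (Fin s) (Fin s) K) := fun j =>
    hE _ (List.mem_map.2 ⟨_, List.get_mem _ _, rfl⟩)
  choose g hg using hE'
  let ρ : FreeGroup (Fin vs.length) →* Matrix.GeneralLinearGroup (Fin s) K := FreeGroup.lift g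
  have hρ : ∀ j, ρ (FreeGroup.of j) = g j := fun j => FreeGroup.lift_apply_of
  obtain ⟨u, hu⟩ := hJ (ev μ z *ᵥ v)
  let M' : Matrix (Fin (n + 1)) (Fin s) K := M * ev μ x * J
  have hmul : ∀ (a b : FreeGroup (Fin vs.length)) (y : Fin s → K),
      (ρ (a * b) : Matrix (Fin s) (Fin s) K) *ᵥ y =
        (ρ a : Matrix (Fin s) (Fin s) K) *ᵥ ((ρ b : Matrix (Fin s) (Fin s) K) *ᵥ y) := by
    intro a b y
    rw [map_mul, Units.val_mul, Matrix.mulVec_mulVec]
  let fb : Fin vs.length → List A := fun j => q ++ vs.get j
  have hJρ : ∀ js : List (Fin vs.length),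
      J *ᵥ ((ρ (js.map FreeGroup.of).prod : Matrix (Fin s) (Fin s) K) *ᵥ u) =
        ev μ (js.map fb).flatten *ᵥ (J *ᵥ u) := by
    intro js
    induction js with
    | nil => simp [ev_nil]
    | cons j js ih =>
      rw [List.map_cons, List.prod_cons, hmul, hρ, Matrix.mulVec_mulVec, ← hg j,
        ← Matrix.mulVec_mulVec, ih, List.map_cons, List.flatten_cons, ev_append,
        ← Matrix.mulVec_mulVec]
      have h1 : ev μ (fb j) = Q0 * ev μ (vs.get j) := ev_append μ q (vs.get j)
      rw [h1]
      simp only [Matrix.mulVec_mulVec, Matrix.mul_assoc]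
  have hpt : ∀ js : List (Fin vs.length),
      orb M' ρ u (js.map FreeGroup.of).prod =
        pt M μ v (x ++ (js.map fb).flatten ++ q ++ z) := by
    intro js
    unfold orb
    rw [pt_eq]
    change (M * ev μ x * J) *ᵥ _ = _
    rw [← Matrix.mulVec_mulVec, hJρ, ← hu, ev_append, ev_append, ev_append,
      ← Matrix.mulVec_mulVec, ← Matrix.mulVec_mulVec, ← Matrix.mulVec_mulVec,
      ← Matrix.mulVec_mulVec]
  -- the group orbit lies on the variety
  have hX' : ∀ h, ∀ F ∈ FF, MvPolynomial.aeval (orb M' ρ u h) F = 0 := by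
    intro h F hF
    let PF : MvPolynomial (Fin s) K := MvPolynomial.aeval
      (fun i => ∑ j, MvPolynomial.C (M' i j) * MvPolynomial.X j) F
    have hPF : ∀ y : Fin s → K, MvPolynomial.eval y PF = MvPolynomial.aeval (M' *ᵥ y) F := by
      intro y
      have h1 := MvPolynomial.comp_aeval_apply (R := k)
        (fun i => ∑ j, MvPolynomial.C (M' i j) * MvPolynomial.X j :
          Fin (n + 1) → MvPolynomial (Fin s) K)
        ((MvPolynomial.aeval y : MvPolynomial (Fin s) K →ₐ[K] K).restrictScalars k) F
      have h2 : MvPolynomial.eval y PF =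
          ((MvPolynomial.aeval y : MvPolynomial (Fin s) K →ₐ[K] K).restrictScalars k) PF := by
        rw [AlgHom.restrictScalars_apply, MvPolynomial.aeval_eq_eval]
      rw [h2, h1]
      congr 2
      funext i
      rw [AlgHom.restrictScalars_apply, map_sum]
      simp [Matrix.mulVec, dotProduct]
    have h3 := vanish_group ρ u PF (fun l => by
      rw [hPF]
      have h4 := hpt l
      unfold orb at h4
      rw [h4]
      exact hX _ F hF) h
    rw [hPF] at h3
    exact h3
  have hGs : CurCond FF G (s * s) := CurCond.mono hG (Nat.mul_le_mul hs hs)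
  have hfg : Group.FG (FreeGroup (Fin vs.length)) := inferInstance
  obtain ⟨hidx, hdvd⟩ := NN_index_bd hD hfg ρ
  let js : List (Fin vs.length) := List.finRange vs.length
  let ts : List (FreeGroup (Fin vs.length)) := js.map FreeGroup.of
  have hfull : pt M μ v w = orb M' ρ u ts.prod := by
    rw [hpt, hweq]
    congr 4
    rw [show js.map fb = (js.map vs.get).map (q ++ ·) by rw [List.map_map]; rfl]
    exact congrArg (fun l => (List.map (q ++ ·) l).flatten) (List.map_get_finRange vs).symm
  obtain ⟨l, hl⟩ := Function.ne_iff.1 hw0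
  have hl' : (M' *ᵥ ((ρ ts.prod : Matrix (Fin s) (Fin s) K) *ᵥ u)) l ≠ 0 := by
    have := hl
    rw [hfull] at this
    exact this
  obtain ⟨i, j, hij, hjN, hne, hmem⟩ := exists_remove ρ (NN ρ) inferInstance hidx M' u l ts (by
    have h1 : (NN ρ).index ≤ bd s D := Nat.le_of_dvd (bd_pos s D) hdvd
    have h2 := le_NB hs h1
    simp only [ts, js, List.length_map, List.length_finRange]
    omega) hl'
  have hneat := neat_const FF hhom G hGh hGs M' ρ u hX' _ hmem ts.prod (by rw [← hfull]; exact hwG)
  rw [mul_inv_cancel_left] at hneat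
  have hh' : (ts.take i).prod * (ts.drop j).prod =
      ((js.take i ++ js.drop j).map FreeGroup.of).prod := by
    rw [List.map_append, List.prod_append, List.map_take, List.map_drop]
  rw [hh'] at hneat hne
  have hpt' := hpt (js.take i ++ js.drop j)
  refine ⟨x ++ ((js.take i ++ js.drop j).map fb).flatten ++ q ++ z, ?_, ?_, ?_⟩
  · have h1 := length_flatten_lt js fb (fun b => by
      intro h0
      exact hq (List.append_eq_nil_iff.1 h0).1) hij (by
        simpa [ts] using hjN)
    have h2 : w.length = (x ++ (js.map fb).flatten ++ q ++ z).length := by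
      rw [hweq]
      congr 4
      rw [show js.map fb = (js.map vs.get).map (q ++ ·) by rw [List.map_map]; rfl]
      exact congrArg (fun l => (List.map (q ++ ·) l).flatten) (List.map_get_finRange vs).symm
    rw [h2]
    simp only [List.length_append] at h1 ⊢
    omega
  · intro h0
    apply hne
    rw [← hpt'] at h0
    exact congrFun h0 l
  · intro a a'
    have h1 := hneat a a'
    rw [← hfull, hpt'] at h1
    exact h1

end Pool.Agent.X251.WA
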