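import Mathlib

set_option autoImplicit false

namespace Pool.Agent.X251.WA

/-! ### Repeated factors in long words -/

section words

variable {A : Type}

/-- cutting a word into blocks of length `L` -/
theorem exists_blocks (L : ℕ) : ∀ (m : ℕ) (w : List A), w.length = L * m →
    ∃ bs : List (List A), bs.length = m ∧ (∀ b ∈ bs, b.length = L) ∧ bs.flatten = w := by
  intro m
  induction m with
  | zero =>
    intro w hw
    refine ⟨[], rfl, by simp, ?_⟩
    have : w = [] := List.length_eq_zero_iff.1 (by simpa using hw)
    rw [this]; rfl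
  | succ m ih =>
    intro w hw
    obtain ⟨bs, h1, h2, h3⟩ := ih (w.drop L) (by rw [List.length_drop, hw, Nat.mul_succ]; omega)
    refine ⟨w.take L :: bs, by simp [h1], ?_, ?_⟩
    · intro b hb
      rcases List.mem_cons.1 hb with rfl | hb
      · rw [List.length_take, hw, Nat.mul_succ]; omega
      · exact h2 b hb
    · rw [List.flatten_cons, h3, List.take_append_drop]

theorem exists_count' {α : Type} [DecidableEq α] (S : Finset α) (N : ℕ) (bs : List α)
    (h : ∀ b ∈ bs, b ∈ S) (hlen : N * S.card < bs.length) :
    ∃ u ∈ bs, N + 1 ≤ (bs.filter (fun b => decide (b = u))).length := by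
  by_contra hcon
  push Not at hcon
  have h1 := List.sum_toFinset_count_eq_length bs
  have h2 : bs.toFinset.card ≤ S.card :=
    Finset.card_le_card fun b hb => h b (List.mem_toFinset.1 hb)
  have h3 : ∑ a ∈ bs.toFinset, bs.count a ≤ bs.toFinset.card * N := by
    refine Finset.sum_le_card_nsmul _ _ _ fun a ha => ?_
    have h4 := hcon a (List.mem_toFinset.1 ha)
    have h5 : bs.count a = (bs.filter (fun b => decide (b = a))).length := by
      rw [List.count_eq_countP, List.countP_eq_length_filter]
      congr 1
    omega
  have h4 : bs.toFinset.card * N ≤ S.card * N := Nat.mul_le_mul_right N h2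
  rw [Nat.mul_comm] at hlen
  omega

/-- a block which occurs `N + 1` times -/
theorem exists_count [Fintype A] [DecidableEq A] (L N : ℕ) (bs : List (List A))
    (h : ∀ b ∈ bs, b.length = L) (hlen : N * Fintype.card A ^ L < bs.length) :
    ∃ u ∈ bs, N + 1 ≤ (bs.filter (fun b => decide (b = u))).length := by
  refine exists_count' ((Finset.univ : Finset (Fin L → A)).image List.ofFn) N bs ?_ ?_
  · intro b hb
    have hb' := h b hb
    subst hb'
    exact Finset.mem_image.2 ⟨b.get, Finset.mem_univ _, List.ofFn_get b⟩
  · refine lt_of_le_of_lt (Nat.mul_le_mul_left N (Finset.card_image_le.trans ?_)) hlen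
    simp

/-- the occurrences of the block -/
theorem exists_occ [DecidableEq A] (u : List A) : ∀ (bs : List (List A)) (N : ℕ),
    N + 1 ≤ (bs.filter (fun b => decide (b = u))).length →
      ∃ (x : List A) (vs : List (List A)) (z : List A), vs.length = N ∧
      bs.flatten = x ++ (vs.map (u ++ ·)).flatten ++ u ++ z := by
  intro bs
  induction bs with
  | nil => intro N h; simp at h
  | cons b bs ih =>
    intro N h
    by_cases hb : b = u
    · subst hb
      rw [List.filter_cons_of_pos (by simp), List.length_cons] at h
      cases N with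
      | zero => exact ⟨[], [], bs.flatten, rfl, by simp⟩
      | succ N =>
        obtain ⟨x, vs, z, h1, h2⟩ := ih N (by omega)
        refine ⟨[], x :: vs, z, by simp [h1], ?_⟩
        rw [List.flatten_cons, h2]
        simp
    · rw [List.filter_cons_of_neg (by simpa using hb)] at h
      obtain ⟨x, vs, z, h1, h2⟩ := ih N h
      refine ⟨b ++ x, vs, z, h1, ?_⟩
      rw [List.flatten_cons, h2]
      simp

theorem regroup (p q s : List A) : ∀ (vs : List (List A)) (t : List A),
    (vs.map ((p ++ q ++ s) ++ ·)).flatten ++ (p ++ t) =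
      p ++ (vs.map (fun v => q ++ (s ++ v ++ p))).flatten ++ t := by
  intro vs
  induction vs with
  | nil => intro t; simp
  | cons v vs ih =>
    intro t
    have h := ih t
    simp only [List.map_cons, List.flatten_cons, List.append_assoc] at h ⊢
    rw [h]

end words

section main

variable {A : Type} {K : Type} [Field K] {r : ℕ}

/-- the matrix of a word -/
def ev (μ : A → Matrix (Fin r) (Fin r) K) (w : List A) : Matrix (Fin r) (Fin r) K :=
  (w.map μ).prod

theorem ev_nil (μ : A → Matrix (Fin r) (Fin r) K) : ev μ [] = 1 := rfl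

theorem ev_append (μ : A → Matrix (Fin r) (Fin r) K) (u w : List A) :
    ev μ (u ++ w) = ev μ u * ev μ w := by
  unfold ev; rw [List.map_append, List.prod_append]

theorem ev_flatten (μ : A → Matrix (Fin r) (Fin r) K) (ws : List (List A)) :
    ev μ ws.flatten = (ws.map (ev μ)).prod := by
  induction ws with
  | nil => rfl
  | cons w ws ih => rw [List.flatten_cons, ev_append, ih, List.map_cons, List.prod_cons]

/-- the word has a factor with `N` returns to the range of a nonempty word, without loss of rank -/
def Good (μ : A → Matrix (Fin r) (Fin r) K) (N : ℕ) (w : List A) : Prop :=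
  ∃ (x q : List A) (vs : List (List A)) (z : List A), q ≠ [] ∧ vs.length = N ∧
    w = x ++ (vs.map (q ++ ·)).flatten ++ q ++ z ∧
    (ev μ ((vs.map (q ++ ·)).flatten ++ q)).rank = (ev μ q).rank

/-- the length of the words -/
def Lam (N a : ℕ) : ℕ → ℕ
  | 0 => 1
  | m + 1 => Lam N a m * (N * a ^ (Lam N a m) + 1)

theorem Good.append {μ : A → Matrix (Fin r) (Fin r) K} {N : ℕ} {w : List A} (h : Good μ N w)
    (y t : List A) : Good μ N (y ++ w ++ t) := by
  obtain ⟨x, q, vs, z, h1, h2, h3, h4⟩ := h
  exact ⟨y ++ x, q, vs, z ++ t, h1, h2, by rw [h3]; simp, h4⟩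

theorem good_or [Fintype A] (μ : A → Matrix (Fin r) (Fin r) K) (N : ℕ) :
    ∀ (m : ℕ) (w : List A), w.length = Lam N (Fintype.card A) m → Good μ N w ∨
      ∃ x q z : List A, w = x ++ q ++ z ∧ q ≠ [] ∧ (ev μ q).rank + m ≤ r := by
  classical
  intro m
  induction m with
  | zero =>
    intro w hw
    right
    refine ⟨[], w, [], by simp, ?_, ?_⟩
    · rintro rfl; simp [Lam] at hw
    · simpa using (ev μ w).rank_le_height
  | succ m ih =>
    intro w hw
    set L := Lam N (Fintype.card A) m with hL
    obtain ⟨bs, h1, h2, h3⟩ := exists_blocks L (N * Fintype.card A ^ L + 1) w hw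
    obtain ⟨u, hu, hc⟩ := exists_count L N bs h2 (by omega)
    obtain ⟨x, vs, z, hv, hw'⟩ := exists_occ u bs N hc
    rw [h3] at hw'
    rcases ih u (h2 u hu) with hg | ⟨p, q, s, hu', hq, hrk⟩
    · left
      rw [hw']
      exact hg.append _ _
    · set vs' := vs.map (fun v => s ++ v ++ p) with hvs'
      have hw2 : w = (x ++ p) ++ (vs'.map (q ++ ·)).flatten ++ q ++ (s ++ z) := by
        rw [hw', hu']
        have := regroup p q s vs (q ++ s ++ z)
        have e1 : vs'.map (q ++ ·) = vs.map (fun v => q ++ (s ++ v ++ p)) := by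
          rw [hvs', List.map_map]; rfl
        rw [e1]
        simp only [List.append_assoc] at this ⊢
        rw [this]
      have hle : (ev μ ((vs'.map (q ++ ·)).flatten ++ q)).rank ≤ (ev μ q).rank := by
        rw [ev_append]
        exact Matrix.rank_mul_le_right _ _
      rcases hle.eq_or_lt with heq | hlt
      · left
        exact ⟨x ++ p, q, vs', s ++ z, hq, by simp [hvs', hv], hw2, heq⟩
      · right
        refine ⟨x ++ p, (vs'.map (q ++ ·)).flatten ++ q, s ++ z, ?_, ?_, by omega⟩
        · rw [hw2]; simp
        · intro h0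
          exact hq (List.append_eq_nil_iff.1 h0).2

theorem good_of_long [Fintype A] (μ : A → Matrix (Fin r) (Fin r) K) (N : ℕ) (w : List A)
    (hw : Lam N (Fintype.card A) (r + 1) ≤ w.length) : Good μ N w := by
  set L := Lam N (Fintype.card A) (r + 1)
  rcases good_or μ N (r + 1) (w.take L) (by rw [List.length_take]; omega) with h | ⟨x, q, z, _, _, h⟩
  · have := h.append [] (w.drop L)
    rwa [List.nil_append, List.take_append_drop] at this
  · omega

end main

end Pool.Agent.X251.WA
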